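import Pool.Agent.W726.FlowSpace

set_option autoImplicit false
open Set

namespace Pool.Agent.W726.FlowSpace

/-- the type of parameters -/
def KT : Type := ↥K

noncomputable instance : MetricSpace KT := inferInstanceAs (MetricSpace ↥K)

instance : CompactSpace KT := isCompact_iff_compactSpace.mp K_compact

/-- the projection to `X` -/
noncomputable def π (p : KT) : X := ⟨F p.1, ⟨p.1, p.2, rfl⟩⟩

lemma π_cont : Continuous π := by
  have : Continuous fun p : ↥K => (⟨F p.1, ⟨p.1, p.2, rfl⟩⟩ : ↥XS) :=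
    Continuous.subtype_mk (F_cont.comp continuous_subtype_val) _
  exact this

lemma π_surj : Function.Surjective π := by
  rintro ⟨x, p, hp, rfl⟩
  exact ⟨⟨p, hp⟩, rfl⟩

lemma π_quot : Topology.IsQuotientMap π :=
  π_cont.isClosedMap.isQuotientMap π_cont π_surj

lemma fourier_inj {a b : AddCircle (1:ℝ)} (h : (fourier 1 a : ℂ) = fourier 1 b) : a = b := by
  rw [fourier_one, fourier_one] at h
  exact AddCircle.injective_toCircle (by norm_num) (Circle.ext h)

/-- the index type of the covers -/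
abbrev Ix (N M : ℕ) : Type := (Fin N × Fin M) ⊕ Fin M

/-- the sets of the covers -/
def G (N M : ℕ) : Ix N M → Set X
  | Sum.inl (i, j) => {x : X | ∃ φ ∈ arc M j, x.1 = F (sn i, φ)}
  | Sum.inr j => {x : X | x.1.1 < 1 / ((N : ℝ) + 1) ∧ x.1.2.1 ∈ arc M j}

lemma G_open (N M : ℕ) (k : Ix N M) : IsOpen (G N M k) := by
  rcases k with ⟨i, j⟩ | j
  · rw [← π_quot.isOpen_preimage]
    have h1 : π ⁻¹' (G N M (Sum.inl (i, j))) =
        {p : KT | p.1.1 ∈ Ioo (1 / ((i : ℝ) + 3)) (1 / ((i : ℝ) + 1)) ∧ p.1.2 ∈ arc M j} := by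
      ext ⟨⟨s, φ⟩, hs, -⟩
      simp only [G]
      simp only at hs
      constructor
      · rintro ⟨φ', hφ', h⟩
        have e1 : s = sn i := congrArg Prod.fst h
        subst e1
        have e2 : ((sn i : ℝ) : ℂ) * (fourier 1 φ : ℂ) = (sn i : ℂ) * (fourier 1 φ' : ℂ) :=
          congrArg (fun y : Y => y.2.2) h
        have hne : ((sn i : ℝ) : ℂ) ≠ 0 := by exact_mod_cast (sn_pos i).ne'
        have e3 := fourier_inj (mul_left_cancel₀ hne e2)
        subst e3
        refine ⟨⟨?_, ?_⟩, hφ'⟩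
        · unfold sn
          rw [one_div_lt_one_div (by positivity) (by positivity)]; linarith
        · unfold sn
          rw [one_div_lt_one_div (by positivity) (by positivity)]; linarith
      · rintro ⟨⟨h1, h2⟩, h3⟩
        have := S_isolated i hs h1 h2
        subst this
        exact ⟨φ, h3, rfl⟩
    rw [h1]
    have c1 : Continuous fun p : KT => p.1.1 := continuous_fst.comp continuous_subtype_val
    have c2 : Continuous fun p : KT => p.1.2 := continuous_snd.comp continuous_subtype_val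
    exact (isOpen_Ioo.preimage c1).inter ((arc_open M j).preimage c2)
  · have c1 : Continuous fun p : X => p.1.1 := continuous_fst.comp continuous_subtype_val
    have c2 : Continuous fun p : X => p.1.2.1 :=
      continuous_fst.comp (continuous_snd.comp continuous_subtype_val)
    exact (isOpen_Iio.preimage c1).inter ((arc_open M j).preimage c2)

lemma G_cover (N M : ℕ) (hM : 0 < M) (x : X) : ∃ k, x ∈ G N M k := by
  obtain ⟨⟨⟨s, φ⟩, hs, -⟩, rfl⟩ := π_surj x
  simp only at hs
  by_cases h : s < 1 / ((N : ℝ) + 1)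
  · obtain ⟨j, hj⟩ := arc_cover M hM (φ + φ)
    exact ⟨Sum.inr j, h, hj⟩
  · rcases hs with rfl | ⟨n, rfl⟩
    · exfalso
      apply h
      positivity
    · have hn : n < N := by
        by_contra hn
        apply h
        unfold sn
        rw [one_div_lt_one_div (by positivity) (by positivity)]
        have : (N : ℝ) ≤ n := by exact_mod_cast not_lt.mp hn
        linarith
      obtain ⟨j, hj⟩ := arc_cover M hM φ
      exact ⟨Sum.inl (⟨n, hn⟩, j), φ, hj, rfl⟩

lemma G_mult (N M : ℕ) (hM : 0 < M) (x : X) : {k : Ix N M | x ∈ G N M k}.ncard ≤ 2 := by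
  obtain ⟨⟨⟨s, φ⟩, hs, -⟩, rfl⟩ := π_surj x
  simp only at hs
  set x : X := π ⟨(s, φ), ⟨hs, trivial⟩⟩ with hx
  by_cases h : s < 1 / ((N : ℝ) + 1)
  · have hsub : {k : Ix N M | x ∈ G N M k} ⊆ Sum.inr '' {j : Fin M | φ + φ ∈ arc M j} := by
      rintro (⟨i, j⟩ | j) hk
      · exfalso
        obtain ⟨φ', hφ', h'⟩ := hk
        have e1 : s = sn i := congrArg Prod.fst h'
        rw [e1] at h
        unfold sn at h
        rw [one_div_lt_one_div (by positivity) (by positivity)] at h
        have : (N : ℝ) < (i : ℕ) + 1 := by linarith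
        have h3 : N < (i : ℕ) + 1 := by exact_mod_cast this
        have := i.2
        omega
      · exact ⟨j, hk.2, rfl⟩
    refine (Set.ncard_le_ncard hsub (Set.toFinite _)).trans ?_
    exact (Set.ncard_image_le (Set.toFinite _)).trans (arc_mult M hM _)
  · rcases hs with hs0 | ⟨n, hn⟩
    · exfalso
      apply h
      rw [hs0]
      positivity
    · have hsub : {k : Ix N M | x ∈ G N M k} ⊆
          {k : Ix N M | ∃ (i : Fin N) (j : Fin M), (i : ℕ) = n ∧ φ ∈ arc M j ∧ k = Sum.inl (i, j)} := by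
        rintro (⟨i, j⟩ | j) hk
        · obtain ⟨φ', hφ', h'⟩ := hk
          have e1 : s = sn i := congrArg Prod.fst h'
          have e2 : ((s : ℝ) : ℂ) * (fourier 1 φ : ℂ) = (sn i : ℂ) * (fourier 1 φ' : ℂ) :=
            congrArg (fun y : Y => y.2.2) h'
          rw [e1] at e2
          have hne : ((sn i : ℝ) : ℂ) ≠ 0 := by exact_mod_cast (sn_pos i).ne'
          have e3 := fourier_inj (mul_left_cancel₀ hne e2)
          have e4 : (i : ℕ) = n := by
            have : sn i = sn n := by rw [← e1, hn]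
            unfold sn at this
            have h7 : ((i : ℕ) : ℝ) = (n : ℝ) := by
              field_simp at this
              linarith
            exact_mod_cast h7
          exact ⟨i, j, e4, e3 ▸ hφ', rfl⟩
        · exfalso
          exact h hk.1
      refine le_trans ?_ (arc_mult M hM φ)
      refine (Set.ncard_le_ncard hsub (Set.toFinite _)).trans ?_
      refine Set.ncard_le_ncard_of_injOn (fun k : Ix N M => Sum.elim (fun p => p.2) id k) ?_ ?_ (Set.toFinite _)
      · rintro k ⟨i, j, -, hj, rfl⟩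
        exact hj
      · rintro k ⟨i, j, hi, hj, rfl⟩ k' ⟨i', j', hi', hj', rfl⟩ hkk
        simp only [Sum.elim_inl] at hkk
        have : i = i' := Fin.ext (hi.trans hi'.symm)
        rw [this, hkk]

lemma norm_w (s : ℝ) (hs : 0 ≤ s) (φ : AddCircle (1:ℝ)) : ‖(s : ℂ) * (fourier 1 φ : ℂ)‖ = s := by
  rw [norm_mul, fourier_one, Circle.norm_coe, mul_one, Complex.norm_real, Real.norm_eq_abs,
    abs_of_nonneg hs]

lemma G_small (δ : ℝ) (hδ : 0 < δ) : ∃ N M : ℕ, 0 < M ∧ ∀ (k : Ix N M) (x y : X), x ∈ G N M k →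
    y ∈ G N M k → dist x y < δ := by
  obtain ⟨η, hη, huc⟩ := Metric.uniformContinuous_iff.mp
    (CompactSpace.uniformContinuous_of_continuous
      (fourier 1 : C(AddCircle (1:ℝ), ℂ)).continuous) δ hδ
  obtain ⟨N, hN⟩ := exists_nat_gt (2 / δ)
  obtain ⟨M, hM⟩ := exists_nat_gt (max (4 / δ) (2 / η))
  have hM0 : 0 < M := by
    have : (0:ℝ) < M := lt_trans (by positivity) (lt_of_le_of_lt (le_max_left _ _) hM)
    exact_mod_cast this
  have hM' : (0:ℝ) < M := by exact_mod_cast hM0
  have hM1 : 4 / (M:ℝ) < δ := by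
    have := lt_of_le_of_lt (le_max_left _ _) hM
    rw [div_lt_iff₀ hδ] at this
    rw [div_lt_iff₀ hM']; linarith
  have hM2 : 2 / (M:ℝ) < η := by
    have := lt_of_le_of_lt (le_max_right _ _) hM
    rw [div_lt_iff₀ hη] at this
    rw [div_lt_iff₀ hM']; linarith
  have hM3 : 2 / (M:ℝ) < δ := by
    have : 2 / (M:ℝ) ≤ 4 / M := by gcongr; norm_num
    linarith
  have hN1 : 2 / ((N:ℝ) + 1) < δ := by
    rw [div_lt_iff₀ hδ] at hN
    rw [div_lt_iff₀ (by positivity)]; nlinarith
  refine ⟨N, M, hM0, ?_⟩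
  rintro (⟨i, j⟩ | j) x y hx hy
  · obtain ⟨φ, hφ, hx⟩ := hx
    obtain ⟨ψ, hψ, hy⟩ := hy
    have hd := arc_small M hM0 j φ ψ hφ hψ
    change dist x.1 y.1 < δ
    rw [hx, hy]
    unfold F
    rw [Prod.dist_eq, max_lt_iff]
    constructor
    · simp [hδ]
    rw [Prod.dist_eq, max_lt_iff]
    constructor
    · simp only
      refine (dist_add_add_le _ _ _ _).trans_lt ?_
      have : 4 / (M:ℝ) = 2/M + 2/M := by ring
      linarith
    · simp only
      rw [dist_eq_norm, ← mul_sub, norm_mul, Complex.norm_real, Real.norm_eq_abs,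
        abs_of_pos (sn_pos i)]
      have h1 : ‖(fourier 1 φ : ℂ) - fourier 1 ψ‖ < δ := by
        rw [← dist_eq_norm]
        exact huc (lt_of_le_of_lt hd hM2)
      have h2 := sn_le i
      have h3 := sn_pos (i : ℕ)
      nlinarith [norm_nonneg ((fourier 1 φ : ℂ) - fourier 1 ψ)]
  · obtain ⟨⟨⟨s, φ⟩, hs, _⟩, rfl⟩ := π_surj x
    obtain ⟨⟨⟨s', φ'⟩, hs', _⟩, rfl⟩ := π_surj y
    simp only at hs hs'
    have hs0 := S_nonneg hs
    have hs0' := S_nonneg hs'
    have hx1 : s < 1 / ((N : ℝ) + 1) := hx.1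
    have hy1 : s' < 1 / ((N : ℝ) + 1) := hy.1
    have hN2 : 2 / ((N:ℝ) + 1) = 1 / ((N:ℝ) + 1) + 1 / ((N:ℝ) + 1) := by ring
    have hd := arc_small M hM0 j _ _ hx.2 hy.2
    change dist (F (s, φ)) (F (s', φ')) < δ
    unfold F
    rw [Prod.dist_eq, max_lt_iff]
    constructor
    · simp only
      rw [Real.dist_eq, abs_lt]
      constructor <;> linarith
    rw [Prod.dist_eq, max_lt_iff]
    constructor
    · simp only
      exact lt_of_le_of_lt hd hM3
    · simp only
      refine (dist_le_norm_add_norm _ _).trans_lt ?_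
      rw [norm_w s hs0, norm_w s' hs0']
      linarith

/-- the space has covering dimension at most one -/
lemma dim_one {ι : Type} (U : ι → Set X) (hU : ∀ i, IsOpen (U i)) (hc : (⋃ i, U i) = univ) :
    ∃ (m : ℕ) (γ : Fin m → Set X), (∀ j, IsOpen (γ j)) ∧ (⋃ j, γ j) = univ ∧
      (∀ j, ∃ i, γ j ⊆ U i) ∧ ∀ x : X, {j : Fin m | x ∈ γ j}.ncard ≤ 2 := by
  obtain ⟨δ, hδ, hL⟩ := lebesgue_number_lemma_of_metric (isCompact_univ (X := X)) hU
    (by rw [hc])
  obtain ⟨N, M, hM, hsm⟩ := G_small δ hδ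
  have x0 : X := π ⟨(0, 0), ⟨Or.inl rfl, trivial⟩⟩
  let e : Ix N M ≃ Fin (Fintype.card (Ix N M)) := Fintype.equivFin _
  refine ⟨Fintype.card (Ix N M), fun j => G N M (e.symm j), fun j => G_open N M _, ?_, ?_, ?_⟩
  · rw [eq_univ_iff_forall]
    intro x
    obtain ⟨k, hk⟩ := G_cover N M hM x
    rw [mem_iUnion]
    exact ⟨e k, by simpa using hk⟩
  · intro j
    by_cases hne : (G N M (e.symm j)).Nonempty
    · obtain ⟨x, hx⟩ := hne
      obtain ⟨i, hi⟩ := hL x (mem_univ x)
      refine ⟨i, fun y hy => hi ?_⟩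
      rw [Metric.mem_ball]
      exact hsm _ y x hy hx
    · rw [not_nonempty_iff_eq_empty] at hne
      obtain ⟨i, hi⟩ := hL x0 (mem_univ x0)
      exact ⟨i, by change G N M (e.symm j) ⊆ U i; rw [hne]; exact empty_subset _⟩
  · intro x
    refine le_trans ?_ (G_mult N M hM x)
    refine Set.ncard_le_ncard_of_injOn (fun j => e.symm j) ?_ ?_ (Set.toFinite _)
    · intro j hj
      exact hj
    · exact e.symm.injective.injOn

end Pool.Agent.W726.FlowSpace
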