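import Mathlib

set_option autoImplicit false
open scoped FourierTransform
open MeasureTheory

namespace Pool.Agent.W726.FlowSpec

/-- a smooth compactly supported test function near a point -/
lemma exists_test (x0 r : ℝ) (hr : 0 < r) : ∃ φ : SchwartzMap ℝ ℂ, HasCompactSupport (⇑φ) ∧
    tsupport (⇑φ) ⊆ Metric.closedBall x0 r ∧ φ x0 = 1 := by
  let b : ContDiffBump x0 := ⟨r/2, r, by positivity, by linarith⟩
  have h1 : ContDiff ℝ (⊤ : ℕ∞) (fun x => ((b x : ℝ) : ℂ)) :=
    Complex.ofRealCLM.contDiff.comp b.contDiff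
  have h2 : HasCompactSupport (fun x => ((b x : ℝ) : ℂ)) := by
    have := b.hasCompactSupport
    exact this.comp_left (g := fun x : ℝ => (x : ℂ)) (by simp)
  refine ⟨h2.toSchwartzMap h1, ?_, ?_, ?_⟩
  · exact h2
  · have : tsupport (⇑(h2.toSchwartzMap h1)) ⊆ tsupport b := by
      apply closure_mono
      intro x hx
      simp only [Function.mem_support] at hx ⊢
      intro h
      apply hx
      change ((b x : ℝ) : ℂ) = 0
      rw [h]; simp
    refine this.trans ?_
    rw [b.tsupport_eq]
  · change ((b x0 : ℝ) : ℂ) = 1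
    rw [b.one_of_mem_closedBall]
    · simp
    · simp [b]; positivity

/-- If `g` is a bounded continuous `T`-periodic function all of whose translates are annihilated
by the test functions with spectral support off `[-1,1]`, then all Fourier coefficients with
`|k|/T > 1` vanish. -/
lemma coeff_zero (g : ℝ → ℝ) (hg : Continuous g) (C : ℝ) (hC : ∀ t, |g t| ≤ C) (T : ℝ)
    (hT : 0 < T) (hper : ∀ t, g (t + T) = g t)
    (H : ∀ (φ : SchwartzMap ℝ ℂ) (u : ℝ), HasCompactSupport (⇑φ) →
      Disjoint (tsupport (⇑φ)) (Set.Icc (-1) 1) →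
      ∫ t, ((g (t + u) : ℝ) : ℂ) * 𝓕 (⇑φ : ℝ → ℂ) t = 0)
    (k : ℤ) (hk : 1 < |(k : ℝ)| / T) :
    ∫ u in (0:ℝ)..T, Complex.exp (-(2 * Real.pi * k * u / T : ℝ) * Complex.I) * ((g u : ℝ) : ℂ) = 0 := by
  set x0 : ℝ := k / T with hx0
  have hx0abs : 1 < |x0| := by
    rw [hx0, abs_div, abs_of_pos hT]; exact hk
  obtain ⟨φ, hφc, hφs, hφ1⟩ := exists_test x0 ((|x0| - 1)/2) (by linarith)
  have hdisj : Disjoint (tsupport (⇑φ)) (Set.Icc (-1) 1) := by
    rw [Set.disjoint_left]
    intro y hy hy1
    have := hφs hy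
    rw [Metric.mem_closedBall, Real.dist_eq] at this
    have h3 : |y| ≤ 1 := abs_le.mpr hy1
    have h4 : |x0| ≤ |y| + |y - x0| := by
      have := abs_sub_abs_le_abs_sub x0 y
      rw [abs_sub_comm] at this
      linarith
    linarith
  set F : ℝ → ℂ := 𝓕 (⇑φ : ℝ → ℂ) with hF
  have hFint : Integrable F := by
    have := (𝓕 φ).integrable (μ := volume)
    rwa [SchwartzMap.fourier_coe] at this
  have hFcont : Continuous F := by
    have := (𝓕 φ).continuous
    rwa [SchwartzMap.fourier_coe] at this
  set e : ℝ → ℂ := fun u => Complex.exp (-(2 * Real.pi * k * u / T : ℝ) * Complex.I) with he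
  have hecont : Continuous e := by
    rw [he]; fun_prop
  have hnorm : ∀ u, ‖e u‖ = 1 := by
    intro u
    rw [he]
    simp only
    rw [show (-((2 * Real.pi * k * u / T : ℝ) : ℂ) * Complex.I)
      = ((-(2 * Real.pi * k * u / T) : ℝ) : ℂ) * Complex.I by push_cast; ring]
    exact Complex.norm_exp_ofReal_mul_I _
  -- periodicity of e
  have heT : ∀ u, e (u + T) = e u := by
    intro u
    rw [he]
    simp only
    have : (-((2 * Real.pi * k * (u + T) / T : ℝ) : ℂ) * Complex.I)
      = (-((2 * Real.pi * k * u / T : ℝ) : ℂ) * Complex.I) + ((-k : ℤ) : ℂ) * (2 * Real.pi * Complex.I) := by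
      have hT' : (T : ℂ) ≠ 0 := by exact_mod_cast hT.ne'
      push_cast
      field_simp
      ring
    rw [this]
    exact Complex.exp_periodic.int_mul _ _ |>.trans rfl
  set Q : ℂ := ∫ u in (0:ℝ)..T, e u * ((g u : ℝ) : ℂ) with hQ
  -- double integral
  have hzero : ∫ u in (0:ℝ)..T, e u * ∫ t, ((g (t + u) : ℝ) : ℂ) * F t = 0 := by
    have : ∀ u, (∫ t, ((g (t + u) : ℝ) : ℂ) * F t) = 0 := fun u => H φ u hφc hdisj
    simp [this]
  have hswap : ∫ u in (0:ℝ)..T, e u * ∫ t, ((g (t + u) : ℝ) : ℂ) * F t
      = ∫ t, ∫ u in (0:ℝ)..T, e u * (((g (t + u) : ℝ) : ℂ) * F t) := by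
    rw [intervalIntegral.integral_of_le hT.le]
    simp_rw [intervalIntegral.integral_of_le hT.le]
    rw [← MeasureTheory.integral_integral_swap]
    · apply MeasureTheory.integral_congr_ae
      filter_upwards with u
      rw [MeasureTheory.integral_const_mul]
    · have hb : Integrable (fun p : ℝ × ℝ => (C : ℂ) * F p.2) ((volume.restrict (Set.Ioc 0 T)).prod volume) := by
        have : IsFiniteMeasure (volume.restrict (Set.Ioc 0 T)) := by
          constructor
          rw [Measure.restrict_apply_univ, Real.volume_Ioc]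
          exact ENNReal.ofReal_lt_top
        exact (integrable_const (C:ℂ)).mul_prod hFint
      refine hb.mono ?_ ?_
      · apply Continuous.aestronglyMeasurable
        have : Continuous fun p : ℝ × ℝ => e p.1 * (((g (p.2 + p.1) : ℝ) : ℂ) * F p.2) := by
          have h1 := hecont.comp continuous_fst (X := ℝ × ℝ)
          have h2 := hFcont.comp continuous_snd (X := ℝ × ℝ)
          have h3 : Continuous fun p : ℝ × ℝ => ((g (p.2 + p.1) : ℝ) : ℂ) :=
            Complex.continuous_ofReal.comp (hg.comp (continuous_snd.add continuous_fst))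
          exact h1.mul (h3.mul h2)
        exact this
      · filter_upwards with p
        have hC0 : 0 ≤ C := (abs_nonneg _).trans (hC 0)
        simp only [Function.uncurry]
        rw [norm_mul, norm_mul, norm_mul, hnorm, one_mul, Complex.norm_real, Complex.norm_real,
          Real.norm_eq_abs, Real.norm_eq_abs, abs_of_nonneg hC0]
        exact mul_le_mul_of_nonneg_right (hC _) (norm_nonneg _)
  have hinner : ∀ t, ∫ u in (0:ℝ)..T, e u * (((g (t + u) : ℝ) : ℂ) * F t)
      = Q * (Complex.exp ((2 * Real.pi * (t * x0) : ℝ) * Complex.I) * F t) := by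
    intro t
    have h1 : ∀ u, e u * (((g (t + u) : ℝ) : ℂ) * F t)
      = (e (t + u) * ((g (t + u) : ℝ) : ℂ)) * (Complex.exp ((2 * Real.pi * (t * x0) : ℝ) * Complex.I) * F t) := by
      intro u
      have : e u = e (t + u) * Complex.exp ((2 * Real.pi * (t * x0) : ℝ) * Complex.I) := by
        rw [he]
        simp only
        rw [← Complex.exp_add]
        congr 1
        rw [hx0]
        have hT' : (T : ℂ) ≠ 0 := by exact_mod_cast hT.ne'
        push_cast
        field_simp
        ring
      rw [this]; ring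
    simp_rw [h1]
    rw [intervalIntegral.integral_mul_const]
    congr 1
    rw [intervalIntegral.integral_comp_add_left (fun u => e u * ((g u : ℝ) : ℂ)) t]
    have hp : Function.Periodic (fun u => e u * ((g u : ℝ) : ℂ)) T := by
      intro u
      simp only
      rw [heT, hper]
    have := hp.intervalIntegral_add_eq (t + 0) 0
    rw [zero_add] at this
    rw [hQ, ← this, add_zero]
  have hfinal : Q * φ x0 = 0 := by
    have h1 : ∫ t, Q * (Complex.exp ((2 * Real.pi * (t * x0) : ℝ) * Complex.I) * F t) = 0 := by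
      have := hswap.symm.trans hzero
      simp_rw [hinner] at this
      exact this
    rw [MeasureTheory.integral_const_mul] at h1
    have h2 : (∫ t, Complex.exp ((2 * Real.pi * (t * x0) : ℝ) * Complex.I) * F t) = φ x0 := by
      have h3 : 𝓕⁻ (𝓕 φ) = φ := FourierTransform.fourierInv_fourier_eq φ
      have h4 : (𝓕⁻ (𝓕 φ)) x0 = φ x0 := by rw [h3]
      rw [← h4, SchwartzMap.fourierInv_coe, SchwartzMap.fourier_coe, Real.fourierInv_eq']
      apply MeasureTheory.integral_congr_ae
      filter_upwards with t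
      simp only [smul_eq_mul]
      congr 3
      simp [mul_comm]
    rw [h2] at h1
    exact h1
  rw [hφ1, mul_one] at hfinal
  exact hfinal

end Pool.Agent.W726.FlowSpec

namespace Pool.Agent.W726.FlowSpec

lemma const_of (g : ℝ → ℝ) (hg : Continuous g) (C : ℝ) (hC : ∀ t, |g t| ≤ C) (T : ℝ)
    (hT : 0 < T) (hT1 : T < 1) (hper : ∀ t, g (t + T) = g t)
    (H : ∀ (φ : SchwartzMap ℝ ℂ) (u : ℝ), HasCompactSupport (⇑φ) →
      Disjoint (tsupport (⇑φ)) (Set.Icc (-1) 1) →
      ∫ t, ((g (t + u) : ℝ) : ℂ) * 𝓕 (⇑φ : ℝ → ℂ) t = 0) (t t' : ℝ) : g t = g t' := by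
  have : Fact (0 < T) := ⟨hT⟩
  have hper' : Function.Periodic (fun t => ((g t : ℝ) : ℂ)) T := by
    intro t; simp only; rw [hper]
  let f0 : AddCircle T → ℂ := hper'.lift
  have hf0 : Continuous f0 := by
    have : Continuous (fun t => ((g t : ℝ) : ℂ)) := Complex.continuous_ofReal.comp hg
    exact continuous_coinduced_dom.mpr this
  let f : C(AddCircle T, ℂ) := ⟨f0, hf0⟩
  have hf : ∀ t : ℝ, f (t : AddCircle T) = ((g t : ℝ) : ℂ) := fun t => hper'.lift_coe t
  have hcoef : ∀ k : ℤ, k ≠ 0 → fourierCoeff (⇑f) k = 0 := by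
    intro k hk
    rw [fourierCoeff_eq_intervalIntegral _ k 0]
    have h1 : 1 < |(k : ℝ)| / T := by
      rw [lt_div_iff₀ hT, one_mul]
      have : (1 : ℝ) ≤ |(k : ℝ)| := by
        have := Int.one_le_abs hk
        exact_mod_cast this
      linarith
    have h2 := coeff_zero g hg C hC T hT hper H k h1
    rw [zero_add]
    have h3 : ∫ x in (0:ℝ)..T, (fourier (-k) (x : AddCircle T) : ℂ) • f (x : AddCircle T)
      = ∫ u in (0:ℝ)..T, Complex.exp (-(2 * Real.pi * k * u / T : ℝ) * Complex.I) * ((g u : ℝ) : ℂ) := by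
      apply intervalIntegral.integral_congr
      intro x _
      simp only [smul_eq_mul]
      rw [hf, fourier_coe_apply]
      congr 2
      push_cast
      ring
    rw [h3, h2, smul_zero]
  have hsum : Summable (fourierCoeff (⇑f)) := by
    apply summable_of_ne_finset_zero (s := {0})
    intro k hk
    exact hcoef k (by simpa using hk)
  have hval : ∀ x : AddCircle T, f x = fourierCoeff (⇑f) 0 := by
    intro x
    have h1 := has_pointwise_sum_fourier_series_of_summable hsum x
    have h2 := hasSum_single (f := fun i => fourierCoeff (⇑f) i • (fourier i x : ℂ)) 0 (by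
      intro k hk
      rw [hcoef k hk, zero_smul])
    have h3 := h1.unique h2
    rw [h3]
    simp
  have h1 := hval (t : AddCircle T)
  have h2 := hval (t' : AddCircle T)
  rw [hf] at h1 h2
  have h3 := h1.trans h2.symm
  exact_mod_cast h3

end Pool.Agent.W726.FlowSpec
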