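import Mathlib

set_option autoImplicit false
set_option linter.unusedSectionVars false

open MeasureTheory Filter Topology
open scoped ComplexConjugate

namespace Pool.Agent.W726.Bridge

universe u v

variable {K : Type u} [CommGroup K] [TopologicalSpace K] [IsTopologicalGroup K] [CompactSpace K]

/-- a character as a continuous function -/
noncomputable def toC : PontryaginDual K →* C(K, ℂ) where
  toFun χ := ⟨fun x => (χ x : ℂ), by
    exact continuous_subtype_val.comp (map_continuous χ)⟩
  map_one' := by ext x; simp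
  map_mul' a b := by
    ext x
    change ((a * b) x : ℂ) = (a x : ℂ) * (b x : ℂ)
    rw [← Circle.coe_mul]; rfl

lemma toC_apply (χ : PontryaginDual K) (x : K) : toC χ x = (χ x : ℂ) := rfl

lemma toC_inv_apply (χ : PontryaginDual K) (x : K) : toC χ⁻¹ x = conj (χ x : ℂ) := by
  change ((χ⁻¹ x : Circle) : ℂ) = _
  have : χ⁻¹ x = (χ x)⁻¹ := rfl
  rw [this, Circle.coe_inv_eq_conj]

lemma norm_toC (χ : PontryaginDual K) (x : K) : ‖toC χ x‖ = 1 := Circle.norm_coe _

lemma norm_toC_le (χ : PontryaginDual K) : ‖toC χ‖ ≤ 1 := by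
  rw [ContinuousMap.norm_le _ zero_le_one]
  intro x
  rw [norm_toC]

variable [MeasurableSpace K] [BorelSpace K]

/-- normalised Haar measure -/
noncomputable def mK (K : Type u) [CommGroup K] [TopologicalSpace K] [IsTopologicalGroup K]
    [CompactSpace K] [MeasurableSpace K] [BorelSpace K] : Measure K :=
  Measure.haarMeasure (⊤ : TopologicalSpace.PositiveCompacts K)

instance : (mK K).IsHaarMeasure := by unfold mK; infer_instance

instance : IsProbabilityMeasure (mK K) := by
  constructor
  have := Measure.haarMeasure_self (K₀ := (⊤ : TopologicalSpace.PositiveCompacts K))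
  simpa [mK] using this

lemma intC (f : C(K, ℂ)) : Integrable (fun x => f x) (mK K) :=
  f.continuous.integrable_of_hasCompactSupport (HasCompactSupport.of_compactSpace _)

lemma int_char (χ : PontryaginDual K) (hχ : χ ≠ 1) : ∫ x, toC χ x ∂(mK K) = 0 := by
  obtain ⟨y, hy⟩ : ∃ y, χ y ≠ 1 := by
    by_contra h
    push Not at h
    exact hχ (PontryaginDual.ext fun a => by rw [h a]; rfl)
  have h1 : ∫ x, toC χ (y * x) ∂(mK K) = ∫ x, toC χ x ∂(mK K) :=
    integral_mul_left_eq_self (fun x => toC χ x) y
  have h2 : ∀ x, toC χ (y * x) = (χ y : ℂ) * toC χ x := by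
    intro x
    change ((χ (y * x) : Circle) : ℂ) = _
    rw [map_mul, Circle.coe_mul]; rfl
  simp_rw [h2] at h1
  rw [integral_const_mul] at h1
  have h3 : ((χ y : ℂ) - 1) * ∫ x, toC χ x ∂(mK K) = 0 := by
    rw [sub_mul, h1, one_mul, sub_self]
  rcases mul_eq_zero.mp h3 with h | h
  · exfalso
    apply hy
    apply Circle.ext
    rw [Circle.coe_one]
    exact sub_eq_zero.mp h
  · exact h

lemma int_char_eq (χ : PontryaginDual K) [Decidable (χ = 1)] :
    ∫ x, toC χ x ∂(mK K) = if χ = 1 then 1 else 0 := by
  split_ifs with h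
  · rw [h]; simp
  · exact int_char χ h

end Pool.Agent.W726.Bridge
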