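import Pool.Agent.W726.Bridge1

set_option autoImplicit false
set_option linter.unusedSectionVars false

open MeasureTheory Filter Topology
open scoped ComplexConjugate NNReal

namespace Pool.Agent.W726.Bridge

universe u v

variable {K : Type u} [CommGroup K] [TopologicalSpace K] [IsTopologicalGroup K] [CompactSpace K]

/-- nonnegative combinations of characters -/
noncomputable def LL (K : Type u) [CommGroup K] [TopologicalSpace K] [IsTopologicalGroup K]
    [CompactSpace K] : MonoidAlgebra ℝ≥0 (PontryaginDual K) →ₐ[ℝ≥0] C(K, ℂ) :=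
  MonoidAlgebra.lift ℝ≥0 C(K, ℂ) (PontryaginDual K) toC

/-- the closed cone generated by the characters -/
noncomputable def PP (K : Type u) [CommGroup K] [TopologicalSpace K] [IsTopologicalGroup K]
    [CompactSpace K] : Subalgebra ℝ≥0 C(K, ℂ) := (LL K).range.topologicalClosure

lemma toC_mem (χ : PontryaginDual K) : toC χ ∈ PP K := by
  apply Subalgebra.le_topologicalClosure
  refine ⟨MonoidAlgebra.of ℝ≥0 _ χ, ?_⟩
  simp [LL]

lemma PP_closed : IsClosed (PP K : Set C(K, ℂ)) := Subalgebra.isClosed_topologicalClosure _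

lemma PP_closure {T : Set C(K, ℂ)} (hT : IsClosed T)
    (h : ∀ c : MonoidAlgebra ℝ≥0 (PontryaginDual K), LL K c ∈ T) {f : C(K, ℂ)} (hf : f ∈ PP K) :
    f ∈ T := by
  have h1 : (PP K : Set C(K, ℂ)) = closure ((LL K).range : Set C(K, ℂ)) := rfl
  have h2 : closure ((LL K).range : Set C(K, ℂ)) ⊆ T := by
    apply closure_minimal _ hT
    rintro _ ⟨c, rfl⟩
    exact h c
  exact h2 (h1 ▸ hf)

lemma real_smul_mem {f : C(K, ℂ)} (hf : f ∈ PP K) (a : ℝ) (ha : 0 ≤ a) :
    (a : ℂ) • f ∈ PP K := by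
  have := Subalgebra.smul_mem (PP K) hf (⟨a, ha⟩ : ℝ≥0)
  convert this using 1
  ext x
  change (a : ℂ) * f x = (a : ℝ) • (f x)
  simp

variable [MeasurableSpace K] [BorelSpace K]

lemma int_lip (f g : C(K, ℂ)) : ‖(∫ x, f x ∂(mK K)) - ∫ x, g x ∂(mK K)‖ ≤ ‖f - g‖ := by
  rw [← integral_sub (intC f) (intC g)]
  refine (norm_integral_le_of_norm_le_const (C := ‖f - g‖) ?_).trans ?_
  · filter_upwards with x
    exact (f - g).norm_coe_le_norm x
  · simp

lemma int_cont : Continuous fun f : C(K, ℂ) => ∫ x, f x ∂(mK K) := by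
  have : LipschitzWith 1 fun f : C(K, ℂ) => ∫ x, f x ∂(mK K) :=
    LipschitzWith.of_dist_le_mul fun f g => by
      rw [NNReal.coe_one, one_mul, dist_eq_norm, dist_eq_norm]
      exact int_lip f g
  exact this.continuous

lemma int_cont_mul (ψ : C(K, ℂ)) : Continuous fun f : C(K, ℂ) => ∫ x, (ψ * f) x ∂(mK K) :=
  int_cont.comp (continuous_const.mul continuous_id)

lemma LL_single (χ : PontryaginDual K) (a : ℝ≥0) :
    LL K (MonoidAlgebra.single χ a) = ((a : ℝ) : ℂ) • toC χ := by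
  simp only [LL, MonoidAlgebra.lift_single]
  ext x
  simp [NNReal.smul_def]

/-- Fourier coefficients of combinations -/
lemma int_LL (ψ : PontryaginDual K) (c : MonoidAlgebra ℝ≥0 (PontryaginDual K)) :
    ∫ x, (toC ψ⁻¹ * LL K c) x ∂(mK K) = ((c.coeff ψ : ℝ≥0) : ℂ) := by
  classical
  induction c using MonoidAlgebra.induction_linear with
  | zero => simp
  | add f g hf hg =>
    rw [map_add, mul_add]
    have : ∫ x, (toC ψ⁻¹ * LL K f + toC ψ⁻¹ * LL K g) x ∂(mK K)
      = (∫ x, (toC ψ⁻¹ * LL K f) x ∂(mK K)) + ∫ x, (toC ψ⁻¹ * LL K g) x ∂(mK K) :=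
      integral_add (intC _) (intC _)
    rw [this, hf, hg]
    simp
  | single χ a =>
    have h2 : ∀ x, (toC ψ⁻¹ * LL K (MonoidAlgebra.single χ a)) x = ((a : ℝ) : ℂ) * toC (ψ⁻¹ * χ) x := by
      intro x
      rw [LL_single, map_mul]
      simp only [ContinuousMap.mul_apply, ContinuousMap.smul_apply, smul_eq_mul]
      ring
    simp_rw [h2]
    rw [integral_const_mul, int_char_eq]
    by_cases h : χ = ψ
    · subst h; simp
    · rw [if_neg (by rwa [inv_mul_eq_one, eq_comm]), mul_zero, MonoidAlgebra.coeff_single,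
        Finsupp.single_apply, if_neg h]
      simp

lemma LL_one (c : MonoidAlgebra ℝ≥0 (PontryaginDual K)) :
    (LL K c) 1 = ((c.coeff.sum fun _ a => a : ℝ≥0) : ℂ) := by
  classical
  induction c using MonoidAlgebra.induction_linear with
  | zero => simp
  | add f g hf hg =>
    rw [map_add, ContinuousMap.add_apply, hf, hg, MonoidAlgebra.coeff_add,
      Finsupp.sum_add_index' (by simp) (by simp)]
    push_cast; rfl
  | single χ a =>
    rw [LL_single, MonoidAlgebra.coeff_single, Finsupp.sum_single_index rfl]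
    simp [toC_apply]

/-- positivity of the integral on the cone -/
lemma re_int_nonneg {f : C(K, ℂ)} (hf : f ∈ PP K) : 0 ≤ (∫ x, f x ∂(mK K)).re := by
  refine PP_closure (T := {f | 0 ≤ (∫ x, f x ∂(mK K)).re}) ?_ ?_ hf
  · exact isClosed_le continuous_const (Complex.continuous_re.comp int_cont)
  · intro c
    have h := int_LL (1 : PontryaginDual K) c
    simp only [inv_one, map_one, one_mul] at h
    change 0 ≤ (∫ x, (LL K c) x ∂(mK K)).re
    rw [h]
    simp

/-- the sum of finitely many Fourier coefficients is at most the value at the identity -/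
lemma sum_coeff_le {f : C(K, ℂ)} (hf : f ∈ PP K) (E : Finset (PontryaginDual K)) :
    ∑ ψ ∈ E, (∫ x, (toC ψ⁻¹ * f) x ∂(mK K)).re ≤ (f 1).re := by
  refine PP_closure (T := {f | ∑ ψ ∈ E, (∫ x, (toC ψ⁻¹ * f) x ∂(mK K)).re ≤ (f 1).re}) ?_ ?_ hf
  · apply isClosed_le
    · exact continuous_finsetSum _ fun ψ _ => Complex.continuous_re.comp (int_cont_mul _)
    · exact Complex.continuous_re.comp (continuous_eval_const (1 : K))
  · intro c
    change ∑ ψ ∈ E, (∫ x, (toC ψ⁻¹ * LL K c) x ∂(mK K)).re ≤ ((LL K c) 1).re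
    rw [LL_one]
    simp_rw [int_LL]
    simp only [Complex.ofReal_re]
    rw [← NNReal.coe_sum, NNReal.coe_le_coe, Finsupp.sum]
    classical
    calc ∑ i ∈ E, c.coeff i = ∑ i ∈ E ∩ c.coeff.support, c.coeff i := by
          symm
          apply Finset.sum_subset Finset.inter_subset_left
          intro x hx hx2
          rw [Finset.mem_inter, not_and] at hx2
          exact Finsupp.notMem_support_iff.mp (hx2 hx)
      _ ≤ ∑ i ∈ c.coeff.support, c.coeff i :=
          Finset.sum_le_sum_of_subset Finset.inter_subset_right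

/-! ### geometric series and Poisson kernels -/

/-- `1/(1 - q χ)` -/
noncomputable def geo (q : ℝ) (χ : PontryaginDual K) : C(K, ℂ) :=
  ∑' n : ℕ, ((q : ℂ) • toC χ) ^ n

lemma norm_q {q : ℝ} (hq0 : 0 ≤ q) (hq1 : q < 1) (χ : PontryaginDual K) :
    ‖(q : ℂ) • toC χ‖ < 1 := by
  rw [norm_smul, Complex.norm_real, Real.norm_eq_abs, abs_of_nonneg hq0]
  have := norm_toC_le χ
  nlinarith [norm_nonneg (toC χ)]

lemma geo_mem {q : ℝ} (hq0 : 0 ≤ q) (hq1 : q < 1) (χ : PontryaginDual K) :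
    geo q χ ∈ PP K := by
  have hs := (summable_geometric_of_norm_lt_one (norm_q hq0 hq1 χ)).hasSum
  refine PP_closed.mem_of_tendsto hs (Filter.Eventually.of_forall fun s => ?_)
  exact Subalgebra.sum_mem _ fun n _ => Subalgebra.pow_mem _ (real_smul_mem (toC_mem χ) q hq0) n

lemma geo_apply {q : ℝ} (hq0 : 0 ≤ q) (hq1 : q < 1) (χ : PontryaginDual K) (x : K) :
    geo q χ x = (1 - (q : ℂ) * (χ x : ℂ))⁻¹ := by
  have h := mul_neg_geom_series ((q : ℂ) • toC χ) (norm_q hq0 hq1 χ)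
  have h2 := congrArg (fun f : C(K, ℂ) => f x) h
  simp only [ContinuousMap.mul_apply, ContinuousMap.sub_apply, ContinuousMap.one_apply,
    ContinuousMap.smul_apply, smul_eq_mul] at h2
  exact eq_inv_of_mul_eq_one_right h2

/-- the Poisson kernel -/
noncomputable def poi (q : ℝ) (χ : PontryaginDual K) : C(K, ℂ) :=
  ((1 - q ^ 2 : ℝ) : ℂ) • (geo q χ * geo q χ⁻¹)

lemma poi_mem {q : ℝ} (hq0 : 0 ≤ q) (hq1 : q < 1) (χ : PontryaginDual K) :
    poi q χ ∈ PP K :=
  real_smul_mem (Subalgebra.mul_mem _ (geo_mem hq0 hq1 χ) (geo_mem hq0 hq1 χ⁻¹)) _ (by nlinarith)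

lemma one_sub_ne {q : ℝ} (hq0 : 0 ≤ q) (hq1 : q < 1) (z : Circle) : 1 - (q : ℂ) * (z : ℂ) ≠ 0 := by
  intro h
  have h1 : (q : ℂ) * (z : ℂ) = 1 := (sub_eq_zero.mp h).symm
  have h2 := congrArg norm h1
  rw [norm_mul, Circle.norm_coe, mul_one, Complex.norm_real, Real.norm_eq_abs, abs_of_nonneg hq0,
    norm_one] at h2
  linarith

lemma poi_apply {q : ℝ} (hq0 : 0 ≤ q) (hq1 : q < 1) (χ : PontryaginDual K) (x : K) :
    poi q χ x = (((1 - q ^ 2) / ‖1 - (q : ℂ) * (χ x : ℂ)‖ ^ 2 : ℝ) : ℂ) := by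
  have h1 : poi q χ x = ((1 - q ^ 2 : ℝ) : ℂ) * (geo q χ x * geo q χ⁻¹ x) := rfl
  rw [h1, geo_apply hq0 hq1, geo_apply hq0 hq1]
  have h2 : ((χ⁻¹ x : Circle) : ℂ) = conj (χ x : ℂ) := toC_inv_apply χ x
  rw [h2]
  have h3 : (1 - (q : ℂ) * conj (χ x : ℂ)) = conj (1 - (q : ℂ) * (χ x : ℂ)) := by
    simp
  rw [h3, ← mul_inv, Complex.mul_conj, Complex.normSq_eq_norm_sq]
  push_cast
  ring

lemma poi_shift {q : ℝ} (hq0 : 0 ≤ q) (hq1 : q < 1) (χ : PontryaginDual K) :
    toC χ⁻¹ * poi q χ = (q : ℂ) • poi q χ + ((1 - q ^ 2 : ℝ) : ℂ) • (toC χ⁻¹ * geo q χ⁻¹) := by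
  ext x
  simp only [ContinuousMap.mul_apply, ContinuousMap.add_apply, ContinuousMap.smul_apply,
    smul_eq_mul, poi]
  rw [geo_apply hq0 hq1, geo_apply hq0 hq1]
  have h1 := one_sub_ne hq0 hq1 (χ x)
  have h2 := one_sub_ne hq0 hq1 (χ⁻¹ x)
  have h3 : toC χ⁻¹ x = ((χ⁻¹ x : Circle) : ℂ) := rfl
  rw [h3]
  have h4 : ((χ x : Circle) : ℂ) * ((χ⁻¹ x : Circle) : ℂ) = 1 := by
    rw [← Circle.coe_mul]
    have : χ x * χ⁻¹ x = 1 := by
      have : χ⁻¹ x = (χ x)⁻¹ := rfl
      rw [this, mul_inv_cancel]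
    rw [this]; rfl
  generalize ((χ x : Circle) : ℂ) = z at *
  generalize ((χ⁻¹ x : Circle) : ℂ) = w at *
  generalize ((1 - q ^ 2 : ℝ) : ℂ) = c
  have hA : (1 - (q : ℂ) * z)⁻¹ * (1 - (q : ℂ) * z) = 1 := inv_mul_cancel₀ h1
  generalize (1 - (q : ℂ) * z)⁻¹ = A at *
  generalize (1 - (q : ℂ) * w)⁻¹ = B at *
  linear_combination (c * A * B * q) * h4 + (c * w * B) * hA

end Pool.Agent.W726.Bridge
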