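import Pool.Agent.W726.Bridge2

set_option autoImplicit false
set_option linter.unusedSectionVars false

open MeasureTheory Filter Topology
open scoped ComplexConjugate NNReal

namespace Pool.Agent.W726.Bridge

universe u v

/-- The member of the cover `U_F = ⋁_{s ∈ F} γ(s)⁻¹ U` with label `φ`. -/
def cell {S : Type v} {K : Type u} [CommGroup K] [TopologicalSpace K] {ι : Type}
    (γ : S → (K →ₜ* K)) (U : ι → Set K) (F : Finset S) (φ : S → ι) : Set K :=
  {x : K | ∀ s ∈ F, γ s x ∈ U (φ s)}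

/-- The least number of members of `U_F` which cover `K`. -/
noncomputable def coverNumber {S : Type v} {K : Type u} [CommGroup K] [TopologicalSpace K]
    {ι : Type} (γ : S → (K →ₜ* K)) (U : ι → Set K) (F : Finset S) : ℕ :=
  sInf {n : ℕ | ∃ Φ : Finset (S → ι), Φ.card = n ∧ (⋃ φ ∈ Φ, cell γ U F φ) = Set.univ}

/-- The trajectory `T_F(X) = ∑_{s ∈ F} X·s` in the (multiplicatively written) dual group, where
`χ·s = χ ∘ γ(s)`. -/
def trajectory {S : Type v} {K : Type u} [CommGroup K] [TopologicalSpace K]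
    (γ : S → (K →ₜ* K)) (F : Finset S) (X : Finset (PontryaginDual K)) :
    Set (PontryaginDual K) :=
  {ψ | ∃ ξ : S → PontryaginDual K, (∀ s ∈ F, ξ s ∈ X) ∧
    ψ = ∏ s ∈ F, PontryaginDual.map (γ s) (ξ s)}

section basic
variable {S : Type v} {K : Type u} [CommGroup K] [TopologicalSpace K]

lemma trajectory_finite (γ : S → (K →ₜ* K)) (F : Finset S) (X : Finset (PontryaginDual K)) :
    (trajectory γ F X).Finite := by
  classical
  induction F using Finset.induction_on with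
  | empty =>
    refine (Set.finite_singleton (1 : PontryaginDual K)).subset ?_
    rintro ψ ⟨ξ, -, rfl⟩
    simp
  | insert a F ha ih =>
    have h : ((fun p : PontryaginDual K × PontryaginDual K => PontryaginDual.map (γ a) p.1 * p.2) ''
      ((X : Set (PontryaginDual K)) ×ˢ trajectory γ F X)).Finite :=
      (X.finite_toSet.prod ih).image _
    refine h.subset ?_
    rintro ψ ⟨ξ, hξ, rfl⟩
    rw [Finset.prod_insert ha]
    exact ⟨(ξ a, ∏ s ∈ F, PontryaginDual.map (γ s) (ξ s)),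
      ⟨hξ a (Finset.mem_insert_self _ _), ξ, fun s hs => hξ s (Finset.mem_insert_of_mem hs), rfl⟩,
      rfl⟩

lemma trajectory_nonempty (γ : S → (K →ₜ* K)) (F : Finset S) (X : Finset (PontryaginDual K))
    (hX : X.Nonempty) : (trajectory γ F X).Nonempty := by
  obtain ⟨χ, hχ⟩ := hX
  exact ⟨_, fun _ => χ, fun _ _ => hχ, rfl⟩

lemma exists_cover {ι : Type} [Finite ι] (γ : S → (K →ₜ* K)) (U : ι → Set K)
    (hU : (⋃ i, U i) = Set.univ) (F : Finset S) :
    ∃ Φ : Finset (S → ι), (⋃ φ ∈ Φ, cell γ U F φ) = Set.univ := by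
  classical
  have hfin := Fintype.ofFinite ι
  by_cases hne : Nonempty ι
  · let i0 := hne.some
    let e : (F → ι) → (S → ι) := fun f s => if h : s ∈ F then f ⟨s, h⟩ else i0
    refine ⟨Finset.univ.image e, ?_⟩
    rw [Set.eq_univ_iff_forall]
    intro x
    have : ∀ s : F, ∃ i, γ s x ∈ U i := fun s => by
      have : γ s x ∈ ⋃ i, U i := by rw [hU]; trivial
      rwa [Set.mem_iUnion] at this
    choose f hf using this
    rw [Set.mem_iUnion₂]
    refine ⟨e f, Finset.mem_image_of_mem _ (Finset.mem_univ _), fun s hs => ?_⟩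
    simp only [e, hs, dite_true]
    exact hf ⟨s, hs⟩
  · exfalso
    have : (1 : K) ∈ ⋃ i, U i := by rw [hU]; trivial
    rw [Set.mem_iUnion] at this
    exact hne ⟨this.choose⟩

lemma coverNumber_spec {ι : Type} [Finite ι] (γ : S → (K →ₜ* K)) (U : ι → Set K)
    (hU : (⋃ i, U i) = Set.univ) (F : Finset S) :
    ∃ Φ : Finset (S → ι), Φ.card = coverNumber γ U F ∧ (⋃ φ ∈ Φ, cell γ U F φ) = Set.univ := by
  have : (coverNumber γ U F) ∈ {n : ℕ | ∃ Φ : Finset (S → ι), Φ.card = n ∧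
      (⋃ φ ∈ Φ, cell γ U F φ) = Set.univ} := by
    apply Nat.sInf_mem
    obtain ⟨Φ, hΦ⟩ := exists_cover γ U hU F
    exact ⟨_, Φ, rfl, hΦ⟩
  exact this

lemma coverNumber_le {ι : Type} (γ : S → (K →ₜ* K)) (U : ι → Set K) (F : Finset S)
    (Φ : Finset (S → ι)) (hΦ : (⋃ φ ∈ Φ, cell γ U F φ) = Set.univ) :
    coverNumber γ U F ≤ Φ.card := Nat.sInf_le ⟨Φ, rfl, hΦ⟩

lemma coverNumber_pos {ι : Type} [Finite ι] (γ : S → (K →ₜ* K)) (U : ι → Set K)
    (hU : (⋃ i, U i) = Set.univ) (F : Finset S) : 0 < coverNumber γ U F := by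
  obtain ⟨Φ, h1, h2⟩ := coverNumber_spec γ U hU F
  rw [← h1, Finset.card_pos]
  by_contra h
  rw [Finset.not_nonempty_iff_eq_empty] at h
  rw [h] at h2
  simp only [Finset.notMem_empty, Set.iUnion_of_empty, Set.iUnion_empty] at h2
  exact Set.empty_ne_univ h2

end basic

variable {K : Type u} [CommGroup K] [TopologicalSpace K] [IsTopologicalGroup K] [CompactSpace K]
  {S : Type v}

/-- domination in the cone -/
def Dom (f g : C(K, ℂ)) : Prop := ∃ r ∈ PP K, f = g + r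

lemma Dom.refl (f : C(K, ℂ)) : Dom f f := ⟨0, Subalgebra.zero_mem _, by simp⟩

lemma Dom.mul {f g f' g' : C(K, ℂ)} (h : Dom f g) (h' : Dom f' g') (hf' : f' ∈ PP K)
    (hg : g ∈ PP K) : Dom (f * f') (g * g') := by
  obtain ⟨r, hr, rfl⟩ := h
  obtain ⟨r', hr', rfl⟩ := h'
  refine ⟨g * r' + r * (g' + r'), ?_, by ring⟩
  exact Subalgebra.add_mem _ (Subalgebra.mul_mem _ hg hr') (Subalgebra.mul_mem _ hr hf')

lemma Dom.prod (F : Finset S) (a b : S → C(K, ℂ)) (ha : ∀ s ∈ F, a s ∈ PP K)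
    (hb : ∀ s ∈ F, b s ∈ PP K) (h : ∀ s ∈ F, Dom (a s) (b s)) :
    Dom (∏ s ∈ F, a s) (∏ s ∈ F, b s) := by
  classical
  induction F using Finset.induction_on with
  | empty => simpa using Dom.refl _
  | insert s F hs ih =>
    rw [Finset.prod_insert hs, Finset.prod_insert hs]
    have h1 := ih (fun t ht => ha t (Finset.mem_insert_of_mem ht))
      (fun t ht => hb t (Finset.mem_insert_of_mem ht))
      (fun t ht => h t (Finset.mem_insert_of_mem ht))
    exact (h s (Finset.mem_insert_self _ _)).mul h1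
      (Subalgebra.prod_mem _ fun t ht => ha t (Finset.mem_insert_of_mem ht))
      (hb s (Finset.mem_insert_self _ _))

/-- product of Poisson kernels over `X` -/
noncomputable def BB (q : ℝ) (γ : S → (K →ₜ* K)) (X : Finset (PontryaginDual K)) (s : S) :
    C(K, ℂ) := ∏ χ ∈ X, poi q (PontryaginDual.map (γ s) χ)

variable [MeasurableSpace K] [BorelSpace K]

lemma BB_mem {q : ℝ} (hq0 : 0 ≤ q) (hq1 : q < 1) (γ : S → (K →ₜ* K))
    (X : Finset (PontryaginDual K)) (s : S) : BB q γ X s ∈ PP K :=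
  Subalgebra.prod_mem _ fun _ _ => poi_mem hq0 hq1 _

lemma BB_dom {q : ℝ} (hq0 : 0 ≤ q) (hq1 : q < 1) (γ : S → (K →ₜ* K))
    (X : Finset (PontryaginDual K)) (s : S) (ξ : PontryaginDual K) (hξ : ξ ∈ X) :
    Dom (toC (PontryaginDual.map (γ s) ξ)⁻¹ * BB q γ X s) ((q : ℂ) • BB q γ X s) := by
  classical
  unfold BB
  rw [← Finset.mul_prod_erase X _ hξ, ← mul_assoc, poi_shift hq0 hq1]
  refine ⟨((1 - q ^ 2 : ℝ) : ℂ) • (toC (PontryaginDual.map (γ s) ξ)⁻¹ *
    geo q (PontryaginDual.map (γ s) ξ)⁻¹) *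
    ∏ χ ∈ X.erase ξ, poi q (PontryaginDual.map (γ s) χ), ?_, ?_⟩
  · exact Subalgebra.mul_mem _ (real_smul_mem (Subalgebra.mul_mem _ (toC_mem _)
      (geo_mem hq0 hq1 _)) _ (by nlinarith)) (Subalgebra.prod_mem _ fun _ _ => poi_mem hq0 hq1 _)
  · rw [add_mul, smul_mul_assoc]

lemma main_sum {q : ℝ} (hq0 : 0 ≤ q) (hq1 : q < 1) (γ : S → (K →ₜ* K))
    (X : Finset (PontryaginDual K)) (F : Finset S) :
    ((trajectory γ F X).ncard : ℝ) * (q ^ F.card * (∫ x, (∏ s ∈ F, BB q γ X s) x ∂(mK K)).re)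
      ≤ ((∏ s ∈ F, BB q γ X s) 1).re := by
  classical
  set Φ : C(K, ℂ) := ∏ s ∈ F, BB q γ X s with hΦ
  have hΦm : Φ ∈ PP K := Subalgebra.prod_mem _ fun _ _ => BB_mem hq0 hq1 _ _ _
  set E : Finset (PontryaginDual K) := (trajectory_finite γ F X).toFinset with hE
  have hcard : (trajectory γ F X).ncard = E.card := Set.ncard_eq_toFinset_card _ _
  rw [hcard]
  refine le_trans ?_ (sum_coeff_le hΦm E)
  rw [← nsmul_eq_mul]
  apply Finset.card_nsmul_le_sum
  intro ψ hψ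
  rw [hE, Set.Finite.mem_toFinset] at hψ
  obtain ⟨ξ, hξ, rfl⟩ := hψ
  have h1 : Dom (∏ s ∈ F, (toC (PontryaginDual.map (γ s) (ξ s))⁻¹ * BB q γ X s))
      (∏ s ∈ F, ((q : ℂ) • BB q γ X s)) := by
    apply Dom.prod
    · intro s _
      exact Subalgebra.mul_mem _ (toC_mem _) (BB_mem hq0 hq1 _ _ _)
    · intro s _
      exact real_smul_mem (BB_mem hq0 hq1 _ _ _) q hq0
    · intro s hs
      exact BB_dom hq0 hq1 γ X s (ξ s) (hξ s hs)
  obtain ⟨r, hr, h2⟩ := h1
  have h3 : toC (∏ s ∈ F, PontryaginDual.map (γ s) (ξ s))⁻¹ * Φ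
      = ((q : ℂ) ^ F.card) • Φ + r := by
    rw [← Finset.prod_inv_distrib, map_prod, hΦ, ← Finset.prod_mul_distrib, h2]
    congr 1
    rw [Finset.prod_smul, Finset.prod_const]
  rw [h3]
  have h4 : ∫ x, (((q : ℂ) ^ F.card) • Φ + r) x ∂(mK K)
      = ((q : ℂ) ^ F.card) * (∫ x, Φ x ∂(mK K)) + ∫ x, r x ∂(mK K) := by
    have h5 : ∫ x, (((q : ℂ) ^ F.card) • Φ + r) x ∂(mK K)
      = (∫ x, (((q : ℂ) ^ F.card) • Φ) x ∂(mK K)) + ∫ x, r x ∂(mK K) :=
      integral_add (intC _) (intC _)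
    rw [h5]
    congr 1
    exact integral_const_mul _ _
  rw [h4, Complex.add_re]
  have h6 := re_int_nonneg hr
  have h7 : ((q : ℂ) ^ F.card * (∫ x, Φ x ∂(mK K))).re = q ^ F.card * (∫ x, Φ x ∂(mK K)).re := by
    rw [← Complex.ofReal_pow, Complex.re_ofReal_mul]
  rw [h7]
  linarith

lemma BB_apply {q : ℝ} (hq0 : 0 ≤ q) (hq1 : q < 1) (γ : S → (K →ₜ* K))
    (X : Finset (PontryaginDual K)) (F : Finset S) (x : K) :
    (∏ s ∈ F, BB q γ X s) x =
      ((∏ s ∈ F, ∏ χ ∈ X, (1 - q ^ 2) / ‖1 - (q : ℂ) * (χ (γ s x) : ℂ)‖ ^ 2 : ℝ) : ℂ) := by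
  rw [ContinuousMap.prod_apply, Complex.ofReal_prod]
  apply Finset.prod_congr rfl
  intro s _
  unfold BB
  rw [ContinuousMap.prod_apply, Complex.ofReal_prod]
  apply Finset.prod_congr rfl
  intro χ _
  rw [poi_apply hq0 hq1]
  rfl

/-- the Bowen neighbourhood of the identity -/
def nb (γ : S → (K →ₜ* K)) (X : Finset (PontryaginDual K)) (δ : ℝ) (F : Finset S) : Set K :=
  {x | ∀ s ∈ F, ∀ χ ∈ X, ‖(χ (γ s x) : ℂ) - 1‖ < δ}

lemma nb_open (γ : S → (K →ₜ* K)) (X : Finset (PontryaginDual K)) (δ : ℝ) (F : Finset S) :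
    IsOpen (nb γ X δ F) := by
  have : nb γ X δ F = ⋂ s ∈ F, ⋂ χ ∈ X, {x | ‖(χ (γ s x) : ℂ) - 1‖ < δ} := by
    ext x; simp [nb]
  rw [this]
  refine isOpen_biInter_finset fun s _ => isOpen_biInter_finset fun χ _ => ?_
  refine isOpen_lt ?_ continuous_const
  have h1 : Continuous fun x => χ (γ s x) := (map_continuous χ).comp (map_continuous (γ s))
  exact ((continuous_subtype_val.comp h1).sub continuous_const).norm

lemma measure_bound {q : ℝ} (hq0 : 0 < q) (hq1 : q < 1) {δ : ℝ} (hδ : 0 < δ)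
    (γ : S → (K →ₜ* K)) (X : Finset (PontryaginDual K)) (F : Finset S) :
    ((trajectory γ F X).ncard : ℝ) * (mK K).real (nb γ X δ F)
      ≤ (q⁻¹ * (((1 - q + δ) / (1 - q)) ^ 2) ^ X.card) ^ F.card := by
  have h1 := main_sum hq0.le hq1 γ X F
  set Φ : C(K, ℂ) := ∏ s ∈ F, BB q γ X s with hΦ
  have hq2 : 0 < 1 - q := by linarith
  have hq3 : 0 < 1 - q ^ 2 := by nlinarith
  set g : K → ℝ := fun x => ∏ s ∈ F, ∏ χ ∈ X, (1 - q ^ 2) / ‖1 - (q : ℂ) * (χ (γ s x) : ℂ)‖ ^ 2 with hg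
  have hΦg : ∀ x, Φ x = (g x : ℂ) := fun x => BB_apply hq0.le hq1 γ X F x
  have hgnn : ∀ x, 0 ≤ g x := fun x =>
    Finset.prod_nonneg fun s _ => Finset.prod_nonneg fun χ _ => by positivity
  have hint : (∫ x, Φ x ∂(mK K)).re = ∫ x, g x ∂(mK K) := by
    simp_rw [hΦg]
    rw [integral_complex_ofReal, Complex.ofReal_re]
  have hgint : Integrable g (mK K) := by
    have := (intC Φ).re
    refine this.congr ?_
    filter_upwards with x
    simp [hΦg]
  set c : ℝ := ((1 - q ^ 2) / (1 - q + δ) ^ 2) with hc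
  have hcpos : 0 < c := by rw [hc]; positivity
  have hlow : (mK K).real (nb γ X δ F) * (c ^ X.card) ^ F.card ≤ ∫ x, g x ∂(mK K) := by
    have h2 : ∫ x in nb γ X δ F, (c ^ X.card) ^ F.card ∂(mK K) ≤ ∫ x in nb γ X δ F, g x ∂(mK K) := by
      apply setIntegral_mono_on (integrable_const _).integrableOn hgint.integrableOn
        (nb_open γ X δ F).measurableSet
      intro x hx
      rw [hg]
      simp only
      rw [← Finset.prod_const]
      apply Finset.prod_le_prod (fun s _ => by positivity)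
      intro s hs
      rw [← Finset.prod_const]
      apply Finset.prod_le_prod (fun χ _ => hcpos.le)
      intro χ hχ
      rw [hc]
      have h3 := hx s hs χ hχ
      have h4 : ‖1 - (q : ℂ) * (χ (γ s x) : ℂ)‖ ≤ 1 - q + δ := by
        have h5 : 1 - (q : ℂ) * (χ (γ s x) : ℂ) = (1 - q : ℝ) - (q : ℂ) * ((χ (γ s x) : ℂ) - 1) := by
          push_cast; ring
        rw [h5]
        refine (norm_sub_le _ _).trans ?_
        rw [norm_mul, Complex.norm_real, Complex.norm_real, Real.norm_eq_abs, Real.norm_eq_abs,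
          abs_of_pos hq2, abs_of_pos hq0]
        nlinarith [norm_nonneg ((χ (γ s x) : ℂ) - 1)]
      have h6 : 0 < ‖1 - (q : ℂ) * (χ (γ s x) : ℂ)‖ :=
        norm_pos_iff.mpr (one_sub_ne hq0.le hq1 _)
      apply div_le_div_of_nonneg_left hq3.le (by positivity)
      exact pow_le_pow_left₀ h6.le h4 2
    rw [setIntegral_const, smul_eq_mul] at h2
    refine h2.trans ?_
    exact setIntegral_le_integral hgint (Filter.Eventually.of_forall hgnn)
  have hone : (Φ 1).re = (((1 + q) / (1 - q)) ^ X.card) ^ F.card := by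
    rw [hΦg, Complex.ofReal_re, hg]
    simp only
    have h7 : ∀ s ∈ F, ∀ χ ∈ X, (1 - q ^ 2) / ‖1 - (q : ℂ) * (χ (γ s 1) : ℂ)‖ ^ 2 = (1 + q) / (1 - q) := by
      intro s _ χ _
      rw [map_one, map_one, Circle.coe_one, mul_one]
      have : (1 : ℂ) - q = ((1 - q : ℝ) : ℂ) := by push_cast; ring
      rw [this, Complex.norm_real, Real.norm_eq_abs, abs_of_pos hq2]
      field_simp
      ring
    rw [Finset.prod_congr rfl fun s hs => Finset.prod_congr rfl fun χ hχ => h7 s hs χ hχ]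
    rw [Finset.prod_const, Finset.prod_const]
  rw [hint, hone] at h1
  set N : ℝ := ((trajectory γ F X).ncard : ℝ) with hN
  set M : ℝ := (mK K).real (nb γ X δ F) with hM
  have hN0 : 0 ≤ N := Nat.cast_nonneg _
  have h8 : N * (q ^ F.card * (M * (c ^ X.card) ^ F.card)) ≤ (((1 + q) / (1 - q)) ^ X.card) ^ F.card := by
    refine le_trans ?_ h1
    gcongr
  have h9 : (q⁻¹ * (((1 - q + δ) / (1 - q)) ^ 2) ^ X.card) ^ F.card
      = (((1 + q) / (1 - q)) ^ X.card) ^ F.card / (q ^ F.card * (c ^ X.card) ^ F.card) := by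
    rw [← mul_pow, ← div_pow]
    congr 1
    have h10 : ((1 - q + δ) / (1 - q)) ^ 2 = ((1 + q) / (1 - q)) / c := by
      rw [hc]
      have : (1 : ℝ) - q ^ 2 = (1 - q) * (1 + q) := by ring
      rw [this]
      have h11 : (1 : ℝ) + q ≠ 0 := by positivity
      field_simp
    rw [h10, div_pow]
    field_simp
  rw [h9, le_div_iff₀ (by positivity)]
  linarith

end Pool.Agent.W726.Bridge
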