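import Pool.Agent.W726.Bridge3

set_option autoImplicit false
set_option linter.unusedSectionVars false

open MeasureTheory Filter Topology
open scoped ComplexConjugate NNReal

namespace Pool.Agent.W726.Bridge

universe u v

variable {K : Type u} [CommGroup K] [TopologicalSpace K] [IsTopologicalGroup K] [CompactSpace K]
  {S : Type v}

lemma exists_delta (q : ℝ) (hq1 : q < 1) (n : ℕ) (ε : ℝ) (hε : 0 < ε) :
    ∃ δ : ℝ, 0 < δ ∧ (((1 - q + δ) / (1 - q)) ^ 2) ^ n ≤ Real.exp ε := by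
  have h1 : Tendsto (fun δ : ℝ => (((1 - q + δ) / (1 - q)) ^ 2) ^ n) (𝓝[>] 0) (𝓝 1) := by
    have h2 : Continuous fun δ : ℝ => (((1 - q + δ) / (1 - q)) ^ 2) ^ n := by fun_prop
    have h3 := h2.tendsto 0
    have h4 : (((1 - q + 0) / (1 - q)) ^ 2) ^ n = (1 : ℝ) := by
      rw [add_zero, div_self (by linarith), one_pow, one_pow]
    rw [h4] at h3
    exact h3.mono_left nhdsWithin_le_nhds
  have h5 : ∀ᶠ δ in 𝓝[>] (0:ℝ), (((1 - q + δ) / (1 - q)) ^ 2) ^ n < Real.exp ε :=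
    h1.eventually_lt_const (by rwa [Real.one_lt_exp_iff])
  obtain ⟨δ, h6, h7⟩ := (h5.and self_mem_nhdsWithin).exists
  exact ⟨δ, h7, h6.le⟩

/-- a finite open cover by sets on which the characters in `X` vary little -/
lemma exists_fine_cover (X : Finset (PontryaginDual K)) (δ : ℝ) (hδ : 0 < δ) :
    ∃ (n : ℕ) (U : Fin n → Set K), (∀ i, IsOpen (U i)) ∧ (⋃ i, U i) = Set.univ ∧
      ∀ i, ∀ x ∈ U i, ∀ y ∈ U i, ∀ χ ∈ X, ‖(χ (x * y⁻¹) : ℂ) - 1‖ < δ := by
  classical
  let V : K → Set K := fun y => {z | ∀ χ ∈ X, ‖(χ z : ℂ) - (χ y : ℂ)‖ < δ / 2}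
  have hV : ∀ y, IsOpen (V y) := by
    intro y
    have : V y = ⋂ χ ∈ X, {z | ‖(χ z : ℂ) - (χ y : ℂ)‖ < δ / 2} := by
      ext z; simp [V]
    rw [this]
    refine isOpen_biInter_finset fun χ _ => isOpen_lt ?_ continuous_const
    exact ((continuous_subtype_val.comp (map_continuous χ)).sub continuous_const).norm
  obtain ⟨t, ht⟩ := isCompact_univ.elim_finite_subcover V hV (by
    intro y _
    rw [Set.mem_iUnion]
    refine ⟨y, fun χ _ => ?_⟩
    rw [sub_self, norm_zero]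
    positivity)
  refine ⟨t.card, fun i => V (t.equivFin.symm i), fun i => hV _, ?_, ?_⟩
  · rw [Set.eq_univ_iff_forall]
    intro x
    have := ht (Set.mem_univ x)
    rw [Set.mem_iUnion₂] at this
    obtain ⟨y, hy, hxy⟩ := this
    rw [Set.mem_iUnion]
    exact ⟨t.equivFin ⟨y, hy⟩, by simpa using hxy⟩
  · intro i x hx y hy χ hχ
    have h1 := hx χ hχ
    have h2 := hy χ hχ
    have h3 : (χ (x * y⁻¹) : ℂ) - 1 = ((χ x : ℂ) - (χ y : ℂ)) * ((χ y)⁻¹ : Circle) := by
      rw [map_mul, map_inv, Circle.coe_mul, sub_mul, ← Circle.coe_mul (χ y), mul_inv_cancel,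
        Circle.coe_one]
    rw [h3, norm_mul, Circle.norm_coe, mul_one]
    set w : ℂ := ((χ (t.equivFin.symm i : K) : Circle) : ℂ)
    calc ‖(χ x : ℂ) - (χ y : ℂ)‖ = ‖((χ x : ℂ) - w) - ((χ y : ℂ) - w)‖ := by congr 1; ring
      _ ≤ ‖(χ x : ℂ) - w‖ + ‖(χ y : ℂ) - w‖ := norm_sub_le _ _
      _ < δ := by linarith

variable [MeasurableSpace K] [BorelSpace K]

lemma cell_measure {ι : Type} (γ : S → (K →ₜ* K)) (U : ι → Set K) (X : Finset (PontryaginDual K))
    (δ : ℝ) (hU : ∀ i, ∀ x ∈ U i, ∀ y ∈ U i, ∀ χ ∈ X, ‖(χ (x * y⁻¹) : ℂ) - 1‖ < δ)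
    (F : Finset S) (φ : S → ι) : (mK K) (cell γ U F φ) ≤ (mK K) (nb γ X δ F) := by
  by_cases hne : (cell γ U F φ).Nonempty
  · obtain ⟨y, hy⟩ := hne
    have h1 : cell γ U F φ ⊆ (fun x => x * y⁻¹) ⁻¹' (nb γ X δ F) := by
      intro x hx s hs χ hχ
      have := hU (φ s) _ (hx s hs) _ (hy s hs) χ hχ
      rwa [map_mul, map_inv]
    refine (measure_mono h1).trans ?_
    rw [measure_preimage_mul_right]
  · rw [Set.not_nonempty_iff_eq_empty] at hne
    rw [hne]; simp

/-- First inequality: the algebraic side is dominated by the topological side. -/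
theorem alg_le_top (γ : S → (K →ₜ* K)) (X : Finset (PontryaginDual K)) (hX : X.Nonempty)
    (ε : ℝ) (hε : 0 < ε) :
    ∃ (n : ℕ) (U : Fin n → Set K), (∀ i, IsOpen (U i)) ∧ (⋃ i, U i) = Set.univ ∧
      ∀ F : Finset S, Real.log (trajectory γ F X).ncard
        ≤ Real.log (coverNumber γ U F) + ε * F.card := by
  classical
  set q : ℝ := Real.exp (-(ε / 2)) with hq
  have hq0 : 0 < q := Real.exp_pos _
  have hq1 : q < 1 := by
    rw [hq, Real.exp_lt_one_iff]; linarith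
  obtain ⟨δ, hδ, hδ2⟩ := exists_delta q hq1 X.card (ε / 2) (by positivity)
  obtain ⟨n, U, hUo, hUc, hUs⟩ := exists_fine_cover X δ hδ
  refine ⟨n, U, hUo, hUc, fun F => ?_⟩
  have h1 := measure_bound hq0 hq1 hδ γ X F
  obtain ⟨Φ, hΦ1, hΦ2⟩ := coverNumber_spec γ U hUc F
  have h2 : (1 : ℝ) ≤ (coverNumber γ U F : ℝ) * (mK K).real (nb γ X δ F) := by
    have h3 : (mK K) Set.univ ≤ (coverNumber γ U F : ENNReal) * (mK K) (nb γ X δ F) := by
      rw [← hΦ2, ← hΦ1]
      refine (measure_biUnion_finset_le _ _).trans ?_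
      refine (Finset.sum_le_sum fun φ _ => cell_measure γ U X δ hUs F φ).trans ?_
      rw [Finset.sum_const, nsmul_eq_mul]
    rw [measure_univ] at h3
    have h4 := ENNReal.toReal_mono (ENNReal.mul_ne_top (ENNReal.natCast_ne_top _)
      (measure_ne_top _ _)) h3
    rw [ENNReal.toReal_mul, ENNReal.toReal_one, ENNReal.toReal_natCast] at h4
    exact h4
  have hN : (0 : ℝ) < ((trajectory γ F X).ncard : ℝ) := by
    have := (Set.ncard_pos (trajectory_finite γ F X)).mpr (trajectory_nonempty γ F X hX)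
    exact_mod_cast this
  have hC : (0 : ℝ) < (coverNumber γ U F : ℝ) := by
    exact_mod_cast coverNumber_pos γ U hUc F
  have h5 : (q⁻¹ * (((1 - q + δ) / (1 - q)) ^ 2) ^ X.card) ^ F.card ≤ Real.exp (ε * F.card) := by
    have h6 : q⁻¹ * (((1 - q + δ) / (1 - q)) ^ 2) ^ X.card ≤ Real.exp ε := by
      have h7 : q⁻¹ = Real.exp (ε / 2) := by rw [hq, ← Real.exp_neg, neg_neg]
      calc q⁻¹ * (((1 - q + δ) / (1 - q)) ^ 2) ^ X.card ≤ Real.exp (ε/2) * Real.exp (ε/2) := by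
            rw [h7]; gcongr
        _ = Real.exp ε := by rw [← Real.exp_add]; congr 1; ring
    have h8 : Real.exp (ε * F.card) = (Real.exp ε) ^ F.card := by
      rw [← Real.exp_nat_mul]; congr 1; ring
    rw [h8]
    have h9 : 0 ≤ q⁻¹ * (((1 - q + δ) / (1 - q)) ^ 2) ^ X.card := by positivity
    exact pow_le_pow_left₀ h9 h6 _
  have h10 : ((trajectory γ F X).ncard : ℝ) ≤ (coverNumber γ U F : ℝ) * Real.exp (ε * F.card) := by
    calc ((trajectory γ F X).ncard : ℝ) ≤ ((trajectory γ F X).ncard : ℝ) *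
          ((coverNumber γ U F : ℝ) * (mK K).real (nb γ X δ F)) := le_mul_of_one_le_right hN.le h2
      _ = (coverNumber γ U F : ℝ) * (((trajectory γ F X).ncard : ℝ) * (mK K).real (nb γ X δ F)) := by ring
      _ ≤ (coverNumber γ U F : ℝ) * Real.exp (ε * F.card) := by
          gcongr
          exact h1.trans h5
  calc Real.log (trajectory γ F X).ncard ≤ Real.log ((coverNumber γ U F : ℝ) * Real.exp (ε * F.card)) :=
        Real.log_le_log hN h10
    _ = Real.log (coverNumber γ U F) + ε * F.card := by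
        rw [Real.log_mul hC.ne' (Real.exp_pos _).ne', Real.log_exp]

end Pool.Agent.W726.Bridge
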