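import Pool.Agent.W726.Bridge4
import Pool.Agent.Helper472.Lat_Chars

set_option autoImplicit false
set_option linter.unusedSectionVars false

open MeasureTheory Filter Topology
open scoped ComplexConjugate NNReal

namespace Pool.Agent.W726.Bridge

universe u v

variable {K : Type u} [CommGroup K] [TopologicalSpace K] [IsTopologicalGroup K] [CompactSpace K]
  {S : Type v}

/-- neighbourhoods of the identity contain neighbourhoods given by characters -/
lemma nhds_chars [T2Space K] (V : Set K) (hV : V ∈ 𝓝 (1 : K)) :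
    ∃ (X : Finset (PontryaginDual K)) (δ : ℝ), 0 < δ ∧
      ∀ y : K, (∀ χ ∈ X, ‖(χ y : ℂ) - 1‖ < δ) → y ∈ V := by
  classical
  obtain ⟨W, hWV, hWo, hW1⟩ := mem_nhds_iff.mp hV
  have hcl : IsCompact Wᶜ := hWo.isClosed_compl.isCompact
  have hch : ∀ y : K, y ∈ Wᶜ → ∃ χ : PontryaginDual K, χ y ≠ 1 := by
    intro y hy
    have hne : y ≠ 1 := by
      rintro rfl; exact hy hW1
    obtain ⟨χ, hχ⟩ := Pool.LatH472.chars y hne
    exact ⟨χ, hχ⟩
  choose! c hc using hch
  let O : K → Set K := fun y => {z | ‖(c y y : ℂ) - 1‖ / 2 < ‖(c y z : ℂ) - 1‖}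
  have hO : ∀ y, IsOpen (O y) := fun y => isOpen_lt continuous_const
    ((continuous_subtype_val.comp (map_continuous (c y))).sub continuous_const).norm
  have hpos : ∀ y ∈ Wᶜ, 0 < ‖(c y y : ℂ) - 1‖ := by
    intro y hy
    rw [norm_pos_iff, sub_ne_zero]
    intro h
    apply hc y hy
    apply Circle.ext
    rw [h, Circle.coe_one]
  obtain ⟨t, ht⟩ := hcl.elim_finite_subcover (fun y : (Wᶜ : Set K) => O y) (fun y => hO y) (fun y hy => by
    rw [Set.mem_iUnion]
    refine ⟨⟨y, hy⟩, ?_⟩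
    have := hpos y hy
    change ‖(c y y : ℂ) - 1‖ / 2 < ‖(c y y : ℂ) - 1‖
    linarith)
  obtain ⟨δ, hδ, hδ2⟩ : ∃ δ : ℝ, 0 < δ ∧ ∀ y ∈ t, δ ≤ ‖(c y y : ℂ) - 1‖ / 2 := by
    by_cases htn : t.Nonempty
    · obtain ⟨y0, hy0, hmin⟩ := t.exists_min_image (fun y => ‖(c y y : ℂ) - 1‖ / 2) htn
      exact ⟨_, half_pos (hpos y0 y0.2), hmin⟩
    · rw [Finset.not_nonempty_iff_eq_empty] at htn
      exact ⟨1, one_pos, by rw [htn]; simp⟩
  refine ⟨t.image (fun y : (Wᶜ : Set K) => c (y : K)), δ, hδ, fun y hy => ?_⟩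
  by_contra hyV
  have hyW : y ∈ Wᶜ := fun h => hyV (hWV h)
  have h1 := ht hyW
  rw [Set.mem_iUnion₂] at h1
  obtain ⟨z, hz, hyz⟩ := h1
  have h2 := hy (c z) (Finset.mem_image_of_mem (fun y : (Wᶜ : Set K) => c (y : K)) hz)
  have h3 := hδ2 z hz
  have h4 : ‖(c z z : ℂ) - 1‖ / 2 < ‖(c z y : ℂ) - 1‖ := hyz
  linarith

/-- Lebesgue number of an open cover in terms of characters -/
lemma cover_chars [T2Space K] {n : ℕ} (U : Fin n → Set K) (hUo : ∀ i, IsOpen (U i))
    (hUc : (⋃ i, U i) = Set.univ) :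
    ∃ (X : Finset (PontryaginDual K)) (δ : ℝ) (i : K → Fin n), 0 < δ ∧
      ∀ x y : K, (∀ χ ∈ X, ‖(χ (y * x⁻¹) : ℂ) - 1‖ < δ) → y ∈ U (i x) := by
  classical
  let _ : UniformSpace K := IsTopologicalGroup.rightUniformSpace K
  obtain ⟨V, hV, hV2⟩ := lebesgue_number_lemma (isCompact_univ (X := K)) hUo (by rw [hUc])
  have hV3 : V ∈ Filter.comap (fun p : K × K => p.2 * p.1⁻¹) (𝓝 (1 : K)) := hV
  rw [Filter.mem_comap] at hV3
  obtain ⟨W, hW, hWV⟩ := hV3
  obtain ⟨X, δ, hδ, hX⟩ := nhds_chars W hW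
  choose i hi using fun x : K => hV2 x (Set.mem_univ x)
  refine ⟨X, δ, i, hδ, fun x y h => ?_⟩
  apply hi x
  exact hWV (hX _ h)

lemma trajectory_card_le (γ : S → (K →ₜ* K)) (F : Finset S) (X : Finset (PontryaginDual K)) :
    (trajectory γ F X).ncard ≤ X.card ^ F.card := by
  classical
  induction F using Finset.induction_on with
  | empty =>
    have : trajectory γ ∅ X ⊆ {1} := by
      rintro ψ ⟨ξ, -, rfl⟩
      simp
    calc (trajectory γ ∅ X).ncard ≤ ({1} : Set (PontryaginDual K)).ncard :=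
          Set.ncard_le_ncard this
      _ = _ := by simp
  | insert a F ha ih =>
    have h : trajectory γ (insert a F) X ⊆
      (fun p : PontryaginDual K × PontryaginDual K => PontryaginDual.map (γ a) p.1 * p.2) ''
      ((X : Set (PontryaginDual K)) ×ˢ trajectory γ F X) := by
      rintro ψ ⟨ξ, hξ, rfl⟩
      rw [Finset.prod_insert ha]
      exact ⟨(ξ a, ∏ s ∈ F, PontryaginDual.map (γ s) (ξ s)),
        ⟨hξ a (Finset.mem_insert_self _ _), ξ, fun s hs => hξ s (Finset.mem_insert_of_mem hs),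
          rfl⟩, rfl⟩
    have hfin := (X.finite_toSet.prod (trajectory_finite γ F X))
    calc (trajectory γ (insert a F) X).ncard ≤ _ := Set.ncard_le_ncard h (hfin.image _)
      _ ≤ ((X : Set (PontryaginDual K)) ×ˢ trajectory γ F X).ncard := Set.ncard_image_le hfin
      _ = X.card * (trajectory γ F X).ncard := by
          rw [Set.ncard_prod, Set.ncard_coe_finset]
      _ ≤ X.card * X.card ^ F.card := by gcongr
      _ = X.card ^ (insert a F).card := by
          rw [Finset.card_insert_of_notMem ha, pow_succ]; ring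

variable [MeasurableSpace K] [BorelSpace K]

/-- Cauchy-Schwarz for convex combinations of characters -/
lemma cs_bound {Ω : Type*} [Fintype Ω] (w : Ω → ℝ) (hw1 : ∑ ω, w ω = 1)
    (ψ : Ω → PontryaginDual K) (T : Finset (PontryaginDual K)) (hT : ∀ ω, ψ ω ∈ T) :
    (1 : ℝ) ≤ T.card * ∫ x, ‖∑ ω, (w ω : ℂ) * (ψ ω x : ℂ)‖ ^ 2 ∂(mK K) := by
  classical
  let c : PontryaginDual K → ℝ := fun χ => ∑ ω with ψ ω = χ, w ω
  have hP : ∀ x, ∑ ω, (w ω : ℂ) * (ψ ω x : ℂ) = ∑ χ ∈ T, (c χ : ℂ) * (χ x : ℂ) := by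
    intro x
    rw [← Finset.sum_fiberwise_of_maps_to (s := Finset.univ) (t := T) (g := ψ) (fun ω _ => hT ω)]
    apply Finset.sum_congr rfl
    intro χ _
    simp only [c]
    push_cast
    rw [Finset.sum_mul]
    apply Finset.sum_congr rfl
    intro ω hω
    rw [Finset.mem_filter] at hω
    rw [hω.2]
  have hc1 : ∑ χ ∈ T, c χ = 1 := by
    rw [← hw1]
    exact Finset.sum_fiberwise_of_maps_to (s := Finset.univ) (t := T) (g := ψ) (fun ω _ => hT ω) w
  have hint : ∫ x, ‖∑ ω, (w ω : ℂ) * (ψ ω x : ℂ)‖ ^ 2 ∂(mK K) = ∑ χ ∈ T, c χ ^ 2 := by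
    have h1 : ∀ x, ((‖∑ ω, (w ω : ℂ) * (ψ ω x : ℂ)‖ ^ 2 : ℝ) : ℂ)
        = ∑ χ ∈ T, ∑ χ' ∈ T, ((c χ * c χ' : ℝ) : ℂ) * toC (χ * χ'⁻¹) x := by
      intro x
      rw [hP, ← Complex.normSq_eq_norm_sq, ← Complex.mul_conj, map_sum, Finset.sum_mul_sum]
      apply Finset.sum_congr rfl
      intro χ _
      apply Finset.sum_congr rfl
      intro χ' _
      rw [map_mul toC, ContinuousMap.mul_apply, toC_inv_apply, toC_apply, map_mul,
        Complex.conj_ofReal]
      push_cast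
      ring
    have h2 : ((∫ x, ‖∑ ω, (w ω : ℂ) * (ψ ω x : ℂ)‖ ^ 2 ∂(mK K) : ℝ) : ℂ)
        = ∑ χ ∈ T, ((c χ : ℂ)) ^ 2 := by
      rw [← integral_complex_ofReal]
      simp_rw [h1]
      rw [integral_finsetSum _ fun χ _ => integrable_finsetSum _ fun χ' _ =>
        (intC (toC (χ * χ'⁻¹))).const_mul _]
      apply Finset.sum_congr rfl
      intro χ hχ
      rw [integral_finsetSum _ fun χ' _ => (intC (toC (χ * χ'⁻¹))).const_mul _]
      rw [Finset.sum_eq_single χ]
      · rw [integral_const_mul, mul_inv_cancel, int_char_eq, if_pos rfl]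
        push_cast; ring
      · intro χ' _ hne
        rw [integral_const_mul, int_char_eq, if_neg, mul_zero]
        rw [mul_inv_eq_one]
        exact fun h => hne h.symm
      · intro h; exact absurd hχ h
    have h3 : ((∫ x, ‖∑ ω, (w ω : ℂ) * (ψ ω x : ℂ)‖ ^ 2 ∂(mK K) : ℝ) : ℂ)
        = ((∑ χ ∈ T, c χ ^ 2 : ℝ) : ℂ) := by
      rw [h2]; push_cast; rfl
    exact_mod_cast h3
  rw [hint]
  have h4 := sq_sum_le_card_mul_sum_sq (s := T) (f := c)
  rw [hc1] at h4
  linarith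

end Pool.Agent.W726.Bridge
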