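import Pool.Agent.W726.Bridge5

set_option autoImplicit false
set_option linter.unusedSectionVars false

open MeasureTheory Filter Topology
open scoped ComplexConjugate NNReal

namespace Pool.Agent.W726.Bridge

universe u v

/-- size of Hamming balls -/
lemma hamming_ball {A : Type*} [Fintype A] [DecidableEq A] {n : ℕ} (g : A → Fin n) (t : ℝ)
    (ht0 : 0 < t) (ht1 : t ≤ 1) (β : ℝ) :
    (((Finset.univ : Finset (A → Fin n)).filter
      (fun f => ((Finset.univ.filter fun s => f s ≠ g s).card : ℝ) < β)).card : ℝ) * t ^ β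
      ≤ (1 + t * n) ^ Fintype.card A := by
  classical
  have h1 : ∑ f : A → Fin n, ∏ s, (if f s = g s then (1:ℝ) else t)
      = ∏ s : A, ∑ i : Fin n, (if i = g s then (1:ℝ) else t) := by
    rw [Finset.prod_univ_sum]
    rfl
  have h2 : ∏ s : A, ∑ i : Fin n, (if i = g s then (1:ℝ) else t) ≤ (1 + t * n) ^ Fintype.card A := by
    rw [← Finset.card_univ, ← Finset.prod_const]
    apply Finset.prod_le_prod
    · intro s _
      exact Finset.sum_nonneg fun i _ => by split_ifs <;> linarith
    · intro s _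
      calc ∑ i : Fin n, (if i = g s then (1:ℝ) else t)
          ≤ ∑ i : Fin n, ((if i = g s then (1:ℝ) else 0) + t) := by
            apply Finset.sum_le_sum
            intro i _
            split_ifs <;> linarith
        _ = 1 + t * n := by
            rw [Finset.sum_add_distrib, Finset.sum_ite_eq' Finset.univ (g s)]
            simp [mul_comm]
  rw [← h1] at h2
  refine le_trans ?_ h2
  calc (((Finset.univ : Finset (A → Fin n)).filter
      (fun f => ((Finset.univ.filter fun s => f s ≠ g s).card : ℝ) < β)).card : ℝ) * t ^ β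
      ≤ ∑ f ∈ ((Finset.univ : Finset (A → Fin n)).filter
      (fun f => ((Finset.univ.filter fun s => f s ≠ g s).card : ℝ) < β)),
        ∏ s, (if f s = g s then (1:ℝ) else t) := by
        rw [← nsmul_eq_mul]
        apply Finset.card_nsmul_le_sum
        intro f hf
        rw [Finset.mem_filter] at hf
        have h3 : ∏ s, (if f s = g s then (1:ℝ) else t)
            = t ^ ((Finset.univ.filter fun s => f s ≠ g s).card) := by
          rw [Finset.prod_ite]
          simp
        rw [h3, ← Real.rpow_natCast]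
        exact Real.rpow_le_rpow_of_exponent_ge ht0 ht1 hf.2.le
    _ ≤ ∑ f : A → Fin n, ∏ s, (if f s = g s then (1:ℝ) else t) := by
        apply Finset.sum_le_sum_of_subset_of_nonneg (Finset.filter_subset _ _)
        intro f _ _
        exact Finset.prod_nonneg fun s _ => by split_ifs <;> linarith

variable {K : Type u} [CommGroup K] [TopologicalSpace K] [IsTopologicalGroup K] [CompactSpace K]
  {S : Type v}

/-- number of `s ∈ F` for which `γ s x` is far from the identity -/
noncomputable def bad (γ : S → (K →ₜ* K)) (X : Finset (PontryaginDual K)) (δ : ℝ) (F : Finset S)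
    (x : K) : ℕ := by
  classical
  exact (F.filter fun s => ∃ χ ∈ X, δ ≤ ‖(χ (γ s x) : ℂ) - 1‖).card

/-- points which are close to the identity most of the time -/
def BS (γ : S → (K →ₜ* K)) (X : Finset (PontryaginDual K)) (δ : ℝ) (F : Finset S) (β : ℝ) :
    Set K := {x | (bad γ X δ F x : ℝ) < β}

lemma BS_meas [MeasurableSpace K] [BorelSpace K] (γ : S → (K →ₜ* K))
    (X : Finset (PontryaginDual K)) (δ : ℝ) (F : Finset S) (β : ℝ) :
    MeasurableSet (BS γ X δ F β) := by
  classical
  have h1 : ∀ s, MeasurableSet {x : K | ∃ χ ∈ X, δ ≤ ‖(χ (γ s x) : ℂ) - 1‖} := by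
    intro s
    have : {x : K | ∃ χ ∈ X, δ ≤ ‖(χ (γ s x) : ℂ) - 1‖} =
        ⋃ χ ∈ X, {x : K | δ ≤ ‖(χ (γ s x) : ℂ) - 1‖} := by
      ext x; simp
    rw [this]
    refine Finset.measurableSet_biUnion _ fun χ _ => IsClosed.measurableSet ?_
    refine isClosed_le continuous_const ?_
    have h1 : Continuous fun x => χ (γ s x) := (map_continuous χ).comp (map_continuous (γ s))
    exact ((continuous_subtype_val.comp h1).sub continuous_const).norm
  have h2 : Measurable fun x : K => ∑ s ∈ F,
      ({x : K | ∃ χ ∈ X, δ ≤ ‖(χ (γ s x) : ℂ) - 1‖}.indicator (fun _ => (1 : ℝ)) x) :=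
    Finset.measurable_fun_sum _ fun s _ => measurable_const.indicator (h1 s)
  have h3 : ∀ x : K, (bad γ X δ F x : ℝ) = ∑ s ∈ F,
      ({x : K | ∃ χ ∈ X, δ ≤ ‖(χ (γ s x) : ℂ) - 1‖}.indicator (fun _ => (1 : ℝ)) x) := by
    intro x
    unfold bad
    rw [Finset.card_filter]
    push_cast
    apply Finset.sum_congr rfl
    intro s _
    simp only [Set.indicator_apply]
    rfl
  have h4 : BS γ X δ F β = {x | (∑ s ∈ F,
      ({x : K | ∃ χ ∈ X, δ ≤ ‖(χ (γ s x) : ℂ) - 1‖}.indicator (fun _ => (1 : ℝ)) x)) < β} := by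
    ext x
    change (bad γ X δ F x : ℝ) < β ↔ _
    rw [h3]
    rfl
  rw [h4]
  exact measurableSet_lt h2 measurable_const

/-- packing: few cells cover `K` -/
lemma packing [MeasurableSpace K] [BorelSpace K] {n : ℕ} (γ : S → (K →ₜ* K)) (U : Fin n → Set K)
    (hUc : (⋃ i, U i) = Set.univ)
    (X : Finset (PontryaginDual K)) (δ : ℝ) (i : K → Fin n)
    (hi : ∀ x y : K, (∀ χ ∈ X, ‖(χ (y * x⁻¹) : ℂ) - 1‖ < δ) → y ∈ U (i x))
    (F : Finset S) (β : ℝ) (t : ℝ) (ht0 : 0 < t) (ht1 : t ≤ 1)
    (hpos : 0 < (mK K).real (BS γ X (δ / 2) F β)) :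
    (coverNumber γ U F : ℝ) * (mK K).real (BS γ X (δ / 2) F β) * t ^ (2 * β)
      ≤ (1 + t * n) ^ F.card := by
  classical
  set B := BS γ X (δ / 2) F β with hB
  have hBm : MeasurableSet B := BS_meas γ X _ F β
  set M := (mK K).real B with hM
  -- families with disjoint translates
  let good : Finset K → Prop := fun J => (J : Set K).PairwiseDisjoint (fun x => (fun y => x⁻¹ * y) ⁻¹' B)
  have hcard : ∀ J : Finset K, good J → (J.card : ℝ) * M ≤ 1 := by
    intro J hJ
    have h1 : (mK K).real (⋃ x ∈ J, (fun y => x⁻¹ * y) ⁻¹' B) = ∑ x ∈ J, (mK K).real ((fun y => x⁻¹ * y) ⁻¹' B) :=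
      measureReal_biUnion_finset hJ (fun x _ => (measurable_const_mul x⁻¹) hBm)
    have h2 : ∀ x ∈ J, (mK K).real ((fun y => x⁻¹ * y) ⁻¹' B) = M := by
      intro x _
      rw [hM, measureReal_def, measureReal_def, measure_preimage_mul]
    rw [Finset.sum_congr rfl h2, Finset.sum_const, nsmul_eq_mul] at h1
    rw [← h1]
    exact measureReal_le_one
  obtain ⟨J, hJ, hJmax⟩ : ∃ J : Finset K, good J ∧ ∀ J', good J' → J'.card ≤ J.card := by
    have hbdd : ∀ J : Finset K, good J → J.card ≤ ⌊1 / M⌋₊ := by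
      intro J hJ
      apply Nat.le_floor
      rw [le_div_iff₀ hpos]
      exact hcard J hJ
    have h0 : ∃ k, ∃ J : Finset K, good J ∧ J.card = k := ⟨0, ∅, by simp [good], by simp⟩
    let k := Nat.findGreatest (fun k => ∃ J : Finset K, good J ∧ J.card = k) ⌊1 / M⌋₊
    have hk : ∃ J : Finset K, good J ∧ J.card = k := by
      apply Nat.findGreatest_spec (P := fun k => ∃ J : Finset K, good J ∧ J.card = k) (m := 0) (Nat.zero_le _)
      exact ⟨∅, by simp [good], by simp⟩
    obtain ⟨J, hJ, hJk⟩ := hk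
    refine ⟨J, hJ, fun J' hJ' => ?_⟩
    rw [hJk]
    exact Nat.le_findGreatest (hbdd J' hJ') ⟨J', hJ', rfl⟩
  -- every point is in a translate
  have hcov : ∀ x : K, ∃ y ∈ J, ∃ b ∈ B, ∃ b' ∈ B, x * y⁻¹ = b' * b⁻¹ := by
    intro x
    by_cases hx : x ∈ J
    · have hne : B.Nonempty := by
        by_contra h
        rw [Set.not_nonempty_iff_eq_empty] at h
        rw [hM, h] at hpos
        simp at hpos
      obtain ⟨b, hb⟩ := hne
      exact ⟨x, hx, b, hb, b, hb, by simp⟩
    · by_contra hcon
      push Not at hcon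
      have hg : good (insert x J) := by
        simp only [good, Finset.coe_insert]
        rw [Set.pairwiseDisjoint_insert_of_notMem (by simpa using hx)]
        refine ⟨hJ, fun y hy => ?_⟩
        rw [Set.disjoint_left]
        intro z hz1 hz2
        refine hcon y hy (x⁻¹ * z) hz1 (y⁻¹ * z) hz2 ?_
        rw [mul_inv, inv_inv]
        calc x * y⁻¹ = x * y⁻¹ * (z * z⁻¹) := by rw [mul_inv_cancel, mul_one]
          _ = y⁻¹ * z * (x * z⁻¹) := by ac_rfl
      have := hJmax _ hg
      rw [Finset.card_insert_of_notMem hx] at this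
      omega
  -- the family of labels
  have hchoice : ∀ x : K, ∃ j : Fin n, x ∈ U j := by
    intro x
    have : x ∈ ⋃ i, U i := by rw [hUc]; trivial
    rwa [Set.mem_iUnion] at this
  let i0 : Fin n := i 1
  let ext : (F → Fin n) → (S → Fin n) := fun f s => if h : s ∈ F then f ⟨s, h⟩ else i0
  let ball : K → Finset (F → Fin n) := fun y => (Finset.univ : Finset (F → Fin n)).filter
      (fun f => ((Finset.univ.filter fun s : F => f s ≠ i (γ s y)).card : ℝ) < 2 * β)
  let Φ : Finset (S → Fin n) := J.biUnion fun y => (ball y).image ext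
  have hΦ : (⋃ φ ∈ Φ, cell γ U F φ) = Set.univ := by
    rw [Set.eq_univ_iff_forall]
    intro x
    obtain ⟨y, hy, b, hb, b', hb', hxy⟩ := hcov x
    choose j hj using fun s : S => hchoice (γ s x)
    let f : F → Fin n := fun s => if (∀ χ ∈ X, ‖(χ (γ s b) : ℂ) - 1‖ < δ / 2) ∧
      (∀ χ ∈ X, ‖(χ (γ s b') : ℂ) - 1‖ < δ / 2) then i (γ s y) else j s
    rw [Set.mem_iUnion₂]
    refine ⟨ext f, ?_, ?_⟩
    · rw [Finset.mem_biUnion]
      refine ⟨y, hy, Finset.mem_image_of_mem _ ?_⟩
      rw [Finset.mem_filter]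
      refine ⟨Finset.mem_univ _, ?_⟩
      have h1 : (Finset.univ.filter fun s : F => f s ≠ i (γ s y)).card ≤
          bad γ X (δ / 2) F b + bad γ X (δ / 2) F b' := by
        unfold bad
        refine le_trans ?_ (Finset.card_union_le _ _)
        rw [← Finset.card_image_of_injective (Finset.univ.filter fun s : F => f s ≠ i (γ s y))
          Subtype.val_injective]
        apply Finset.card_le_card
        intro s hs
        rw [Finset.mem_image] at hs
        obtain ⟨s', hs', rfl⟩ := hs
        rw [Finset.mem_filter] at hs'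
        rw [Finset.mem_union, Finset.mem_filter, Finset.mem_filter]
        by_contra hcon
        push Not at hcon
        apply hs'.2
        simp only [f]
        rw [if_pos]
        exact ⟨hcon.1 s'.2, hcon.2 s'.2⟩
      have h2 : (bad γ X (δ / 2) F b : ℝ) < β := hb
      have h3 : (bad γ X (δ / 2) F b' : ℝ) < β := hb'
      have h4 : (((Finset.univ.filter fun s : F => f s ≠ i (γ s y)).card : ℕ) : ℝ) ≤
          (bad γ X (δ / 2) F b : ℝ) + (bad γ X (δ / 2) F b' : ℝ) := by exact_mod_cast h1
      linarith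
    · intro s hs
      simp only [ext, hs, dite_true, f]
      split_ifs with h
      · apply hi
        intro χ hχ
        have e1 := h.1 χ hχ
        have e2 := h.2 χ hχ
        have e3 : γ s x * (γ s y)⁻¹ = γ s b' * (γ s b)⁻¹ := by
          rw [← map_inv, ← map_mul, hxy, map_mul, map_inv]
        rw [e3]
        have e4 : (χ (γ s b' * (γ s b)⁻¹) : ℂ) - 1 =
            ((χ (γ s b') : ℂ) - (χ (γ s b) : ℂ)) * ((χ (γ s b))⁻¹ : Circle) := by
          rw [map_mul, map_inv, Circle.coe_mul, sub_mul, ← Circle.coe_mul (χ (γ s b)),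
            mul_inv_cancel, Circle.coe_one]
        rw [e4, norm_mul, Circle.norm_coe, mul_one]
        calc ‖(χ (γ s b') : ℂ) - (χ (γ s b) : ℂ)‖
            = ‖((χ (γ s b') : ℂ) - 1) - ((χ (γ s b) : ℂ) - 1)‖ := by congr 1; ring
          _ ≤ ‖(χ (γ s b') : ℂ) - 1‖ + ‖(χ (γ s b) : ℂ) - 1‖ := norm_sub_le _ _
          _ < δ := by linarith
      · exact hj s
  have h1 : (coverNumber γ U F : ℝ) ≤ Φ.card := by exact_mod_cast coverNumber_le γ U F Φ hΦ
  have hball : ∀ y, ((ball y).card : ℝ) * t ^ (2 * β) ≤ (1 + t * n) ^ F.card := by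
    intro y
    have := hamming_ball (A := F) (fun s : F => i (γ s y)) t ht0 ht1 (2 * β)
    rw [Fintype.card_coe] at this
    exact this
  have h2 : (Φ.card : ℝ) ≤ ∑ y ∈ J, ((ball y).card : ℝ) := by
    have : Φ.card ≤ ∑ y ∈ J, (ball y).card :=
      Finset.card_biUnion_le.trans (Finset.sum_le_sum fun y _ => Finset.card_image_le)
    exact_mod_cast this
  have ht2 : 0 < t ^ (2 * β) := Real.rpow_pos_of_pos ht0 _
  calc (coverNumber γ U F : ℝ) * M * t ^ (2 * β)
      ≤ (∑ y ∈ J, ((ball y).card : ℝ)) * M * t ^ (2 * β) := by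
        gcongr; exact h1.trans h2
    _ = (∑ y ∈ J, ((ball y).card : ℝ) * t ^ (2 * β)) * M := by
        rw [Finset.sum_mul, Finset.sum_mul, Finset.sum_mul]
        apply Finset.sum_congr rfl; intro y _; ring
    _ ≤ (∑ y ∈ J, (1 + t * n) ^ F.card) * M := by
        gcongr with y hy; exact hball y
    _ = (J.card * M) * (1 + t * n) ^ F.card := by
        rw [Finset.sum_const, nsmul_eq_mul]; ring
    _ ≤ 1 * (1 + t * n) ^ F.card := by
        gcongr; exact hcard J hJ
    _ = (1 + t * n) ^ F.card := one_mul _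

end Pool.Agent.W726.Bridge
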