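import Pool.Agent.W726.Bridge6

set_option autoImplicit false
set_option linter.unusedSectionVars false

open MeasureTheory Filter Topology
open scoped ComplexConjugate NNReal

namespace Pool.Agent.W726.Bridge

universe u v

attribute [local instance 10] Classical.propDecidable

variable {K : Type u} [CommGroup K] [TopologicalSpace K] [IsTopologicalGroup K] [CompactSpace K]
  {S : Type v}

/-- the products `∏ χ ^ a χ` with `0 ≤ a χ ≤ k` -/
noncomputable def powSet (X : Finset (PontryaginDual K)) (k : ℕ) : Finset (PontryaginDual K) :=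
  (Finset.univ : Finset (X → Fin (k + 1))).image fun a => ∏ χ : X, (χ : PontryaginDual K) ^ (a χ : ℕ)

lemma powSet_nonempty (X : Finset (PontryaginDual K)) (k : ℕ) : (powSet X k).Nonempty := by
  classical
  unfold powSet
  exact Finset.univ_nonempty.image _

lemma powSet_card (X : Finset (PontryaginDual K)) (k : ℕ) :
    (powSet X k).card ≤ (k + 1) ^ X.card := by
  classical
  unfold powSet
  refine Finset.card_image_le.trans ?_
  rw [Finset.card_univ, Fintype.card_fun, Fintype.card_fin, Fintype.card_coe]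

/-- the weights -/
noncomputable def wt (X : Finset (PontryaginDual K)) (k : ℕ) (a : X → Fin (k + 1)) : ℝ :=
  ∏ χ : X, ((k.choose (a χ) : ℝ) / 2 ^ k)

lemma expand_one (k : ℕ) (z : ℂ) :
    ((1 + z) / 2) ^ k = ∑ j : Fin (k + 1), ((k.choose j : ℂ) / 2 ^ k) * z ^ (j : ℕ) := by
  rw [div_pow, add_comm, add_pow, Finset.sum_div, Finset.sum_range]
  apply Finset.sum_congr rfl
  intro j _
  rw [one_pow]
  ring

lemma expand (X : Finset (PontryaginDual K)) (k : ℕ) (y : K) :
    ∏ χ : X, ((1 + ((χ : PontryaginDual K) y : ℂ)) / 2) ^ k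
      = ∑ a : X → Fin (k + 1), (wt X k a : ℂ) *
        ((∏ χ : X, (χ : PontryaginDual K) ^ (a χ : ℕ) : PontryaginDual K) y : ℂ) := by
  classical
  have h1 : ∀ χ : X, ((1 + ((χ : PontryaginDual K) y : ℂ)) / 2) ^ k
      = ∑ j : Fin (k + 1), ((k.choose j : ℂ) / 2 ^ k) * ((χ : PontryaginDual K) y : ℂ) ^ (j : ℕ) :=
    fun χ => expand_one k _
  rw [Finset.prod_congr rfl fun χ _ => h1 χ, Finset.prod_univ_sum]
  apply Finset.sum_congr
  · ext a; simp
  intro a _
  rw [Finset.prod_mul_distrib]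
  congr 1
  · unfold wt; push_cast; rfl
  · have h2 : ((∏ χ : X, (χ : PontryaginDual K) ^ (a χ : ℕ) : PontryaginDual K) y : ℂ)
      = toC (∏ χ : X, (χ : PontryaginDual K) ^ (a χ : ℕ)) y := rfl
    rw [h2, map_prod, ContinuousMap.prod_apply]
    apply Finset.prod_congr rfl
    intro χ _
    rw [map_pow, ContinuousMap.pow_apply]; rfl

lemma wt_sum (X : Finset (PontryaginDual K)) (k : ℕ) :
    ∑ a : X → Fin (k + 1), wt X k a = 1 := by
  have h := expand X k (1 : K)
  simp only [map_one, Circle.coe_one, mul_one] at h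
  have h2 : ∏ χ : X, (((1 : ℂ) + 1) / 2) ^ k = 1 := by norm_num
  rw [h2] at h
  have h3 : ((∑ a : X → Fin (k + 1), wt X k a : ℝ) : ℂ) = ((1:ℝ) : ℂ) := by
    push_cast; exact h.symm
  exact_mod_cast h3

/-- the test function -/
noncomputable def PF (γ : S → (K →ₜ* K)) (X : Finset (PontryaginDual K)) (k : ℕ) (F : Finset S)
    (x : K) : ℂ := ∏ s ∈ F, ∏ χ : X, ((1 + ((χ : PontryaginDual K) (γ s x) : ℂ)) / 2) ^ k

variable [MeasurableSpace K] [BorelSpace K]

lemma PF_lower (γ : S → (K →ₜ* K)) (X : Finset (PontryaginDual K)) (k : ℕ) (F : Finset S) :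
    (1 : ℝ) ≤ (trajectory γ F (powSet X k)).ncard * ∫ x, ‖PF γ X k F x‖ ^ 2 ∂(mK K) := by
  classical
  set T : Finset (PontryaginDual K) := (trajectory_finite γ F (powSet X k)).toFinset with hT
  have hcard : (trajectory γ F (powSet X k)).ncard = T.card := Set.ncard_eq_toFinset_card _ _
  rw [hcard]
  let A : Type _ := X → Fin (k + 1)
  let w : (F → A) → ℝ := fun α => ∏ s : F, wt X k (α s)
  let ψ : (F → A) → PontryaginDual K := fun α => ∏ s : F, PontryaginDual.map (γ s)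
    (∏ χ : X, (χ : PontryaginDual K) ^ (α s χ : ℕ))
  have hw1 : ∑ α, w α = 1 := by
    have : ∏ s : F, ∑ a : A, wt X k a = ∑ α : F → A, ∏ s : F, wt X k (α s) := by
      rw [Finset.prod_univ_sum]
      apply Finset.sum_congr _ fun _ _ => rfl
      ext; simp
    rw [← this]
    simp only [A, wt_sum, Finset.prod_const_one]
  have hψT : ∀ α, ψ α ∈ T := by
    intro α
    rw [hT, Set.Finite.mem_toFinset]
    refine ⟨fun s => if h : s ∈ F then ∏ χ : X, (χ : PontryaginDual K) ^ (α ⟨s, h⟩ χ : ℕ) else 1,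
      ?_, ?_⟩
    · intro s hs
      simp only [hs, dite_true]
      unfold powSet
      exact Finset.mem_image_of_mem _ (Finset.mem_univ _)
    · rw [← Finset.prod_coe_sort F]
      apply Finset.prod_congr rfl
      intro s _
      simp
  have h := cs_bound w hw1 ψ T hψT
  convert h using 3
  congr 1
  ext x
  congr 2
  unfold PF
  rw [← Finset.prod_coe_sort F]
  have hex : ∀ s : F, ∏ χ : X, ((1 + ((χ : PontryaginDual K) (γ (s : S) x) : ℂ)) / 2) ^ k
      = ∑ a : X → Fin (k + 1), (wt X k a : ℂ) *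
        ((∏ χ : X, (χ : PontryaginDual K) ^ (a χ : ℕ) : PontryaginDual K) (γ (s : S) x) : ℂ) :=
    fun s => expand X k (γ (s : S) x)
  refine (Finset.prod_congr rfl fun (s : F) _ => hex s).trans ?_
  rw [Finset.prod_univ_sum]
  apply Finset.sum_congr
  · ext α; simp [A]
  intro α _
  rw [Finset.prod_mul_distrib]
  congr 1
  · simp only [w]; push_cast; rfl
  · have h2 : (ψ α x : ℂ) = toC (ψ α) x := rfl
    rw [h2]
    simp only [ψ]
    rw [map_prod, ContinuousMap.prod_apply]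
    apply Finset.prod_congr rfl
    intro s _
    rfl

lemma norm_half (z : Circle) : ‖(1 + (z : ℂ)) / 2‖ ^ 2 = 1 - ‖(z : ℂ) - 1‖ ^ 2 / 4 := by
  have h1 : Complex.normSq (z : ℂ) = 1 := Circle.normSq_coe z
  rw [norm_div, div_pow, ← Complex.normSq_eq_norm_sq, ← Complex.normSq_eq_norm_sq,
    ← Complex.normSq_eq_norm_sq]
  rw [Complex.normSq_apply] at h1
  simp only [Complex.normSq_apply, Complex.add_re, Complex.add_im, Complex.one_re, Complex.one_im,
    Complex.sub_re, Complex.sub_im]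
  norm_num
  linarith

lemma PF_upper (γ : S → (K →ₜ* K)) (X : Finset (PontryaginDual K)) (k : ℕ) (F : Finset S)
    (δ : ℝ) (hδ : 0 < δ) (x : K) :
    ‖PF γ X k F x‖ ^ 2 ≤ Real.exp (-(k * δ ^ 2 / 4)) ^ (bad γ X δ F x) := by
  classical
  unfold PF
  rw [norm_prod, ← Finset.prod_pow]
  have hle1 : ∀ z : Circle, ‖(1 + (z : ℂ)) / 2‖ ^ 2 ≤ 1 := by
    intro z
    rw [norm_half]; nlinarith [sq_nonneg ‖(z : ℂ) - 1‖]
  have hterm : ∀ s, ‖∏ χ : X, ((1 + ((χ : PontryaginDual K) (γ s x) : ℂ)) / 2) ^ k‖ ^ 2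
      = ∏ χ : X, (‖(1 + ((χ : PontryaginDual K) (γ s x) : ℂ)) / 2‖ ^ 2) ^ k := by
    intro s
    rw [norm_prod, ← Finset.prod_pow]
    apply Finset.prod_congr rfl
    intro χ _
    rw [norm_pow, ← pow_mul, ← pow_mul, mul_comm]
  have hb : ∀ s ∈ F, ‖∏ χ : X, ((1 + ((χ : PontryaginDual K) (γ s x) : ℂ)) / 2) ^ k‖ ^ 2
      ≤ if ∃ χ ∈ X, δ ≤ ‖(χ (γ s x) : ℂ) - 1‖ then Real.exp (-(k * δ ^ 2 / 4)) else 1 := by
    intro s _
    rw [hterm]
    split_ifs with h
    · obtain ⟨χ, hχ, hχ2⟩ := h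
      rw [← Finset.mul_prod_erase Finset.univ _ (Finset.mem_univ (⟨χ, hχ⟩ : X))]
      have h1 : ∏ ξ ∈ Finset.univ.erase (⟨χ, hχ⟩ : X),
          (‖(1 + ((ξ : PontryaginDual K) (γ s x) : ℂ)) / 2‖ ^ 2) ^ k ≤ 1 :=
        Finset.prod_le_one (fun ξ _ => by positivity) fun ξ _ => pow_le_one₀ (by positivity) (hle1 _)
      have h2 : (‖(1 + (χ (γ s x) : ℂ)) / 2‖ ^ 2) ^ k ≤ Real.exp (-(k * δ ^ 2 / 4)) := by
        have h3 : ‖(1 + (χ (γ s x) : ℂ)) / 2‖ ^ 2 ≤ Real.exp (-(δ ^ 2 / 4)) := by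
          rw [norm_half]
          have h4 : δ ^ 2 ≤ ‖(χ (γ s x) : ℂ) - 1‖ ^ 2 := pow_le_pow_left₀ hδ.le hχ2 2
          have h5 := Real.add_one_le_exp (-(δ ^ 2 / 4))
          linarith
        calc (‖(1 + (χ (γ s x) : ℂ)) / 2‖ ^ 2) ^ k ≤ (Real.exp (-(δ ^ 2 / 4))) ^ k :=
              pow_le_pow_left₀ (by positivity) h3 k
          _ = Real.exp (-(k * δ ^ 2 / 4)) := by rw [← Real.exp_nat_mul]; congr 1; ring
      calc _ ≤ Real.exp (-(k * δ ^ 2 / 4)) * 1 := by gcongr
        _ = _ := mul_one _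
    · exact Finset.prod_le_one (fun ξ _ => by positivity) fun ξ _ => pow_le_one₀ (by positivity) (hle1 _)
  refine (Finset.prod_le_prod (fun s _ => by positivity) hb).trans ?_
  rw [Finset.prod_ite]
  simp only [Finset.prod_const, one_pow, mul_one]
  unfold bad
  exact le_of_eq (by congr!)

end Pool.Agent.W726.Bridge
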