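import Pool.Agent.W726.Bridge7

set_option autoImplicit false
set_option linter.unusedSectionVars false

open MeasureTheory Filter Topology
open scoped ComplexConjugate NNReal

namespace Pool.Agent.W726.Bridge

universe u v

variable {K : Type u} [CommGroup K] [TopologicalSpace K] [IsTopologicalGroup K] [CompactSpace K]
  {S : Type v}

lemma exists_k (d : ℕ) (c η : ℝ) (hc : 0 < c) (hη : 0 < η) :
    ∃ k : ℕ, ((k : ℝ) + 1) ^ d * Real.exp (-(c * k)) ≤ η := by
  have h1 := Real.tendsto_pow_mul_exp_neg_atTop_nhds_zero d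
  have h2 : Tendsto (fun k : ℕ => c * ((k : ℝ) + 1)) atTop atTop :=
    Tendsto.const_mul_atTop hc (tendsto_atTop_add_const_right _ _ tendsto_natCast_atTop_atTop)
  have h3 := h1.comp h2
  have hη' : 0 < η * c ^ d / Real.exp c := by positivity
  obtain ⟨k, hk⟩ := (h3.eventually (gt_mem_nhds hη')).exists
  refine ⟨k, ?_⟩
  simp only [Function.comp] at hk
  have e1 : Real.exp (-(c * (k + 1))) = Real.exp (-(c * k)) / Real.exp c := by
    rw [← Real.exp_sub]; congr 1; ring
  rw [e1, mul_pow, lt_div_iff₀ (Real.exp_pos c)] at hk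
  have hcd : 0 < c ^ d := by positivity
  have e2 : c ^ d * ((k : ℝ) + 1) ^ d * (Real.exp (-(c * k)) / Real.exp c) * Real.exp c
      = c ^ d * (((k : ℝ) + 1) ^ d * Real.exp (-(c * k))) := by
    field_simp
  rw [e2, mul_comm η] at hk
  exact (lt_of_mul_lt_mul_left hk hcd.le).le

variable [MeasurableSpace K] [BorelSpace K]

lemma BS_lower (γ : S → (K →ₜ* K)) (X : Finset (PontryaginDual K)) (δ α η : ℝ) (hδ : 0 < δ)
    (_hα : 0 < α) (hη0 : 0 < η) (hη1 : η < 1) (k : ℕ)
    (hk : ((k : ℝ) + 1) ^ X.card * Real.exp (-(δ ^ 2 * α / 4 * k)) ≤ η)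
    (F : Finset S) (hF : F.Nonempty) :
    1 - η ≤ (trajectory γ F (powSet X k)).ncard * (mK K).real (BS γ X δ F (α * F.card)) := by
  classical
  set T : ℝ := ((trajectory γ F (powSet X k)).ncard : ℝ) with hT
  have hT0 : 0 ≤ T := Nat.cast_nonneg _
  have hcard : T ≤ (((k : ℝ) + 1) ^ X.card) ^ F.card := by
    have h1 : (trajectory γ F (powSet X k)).ncard ≤ ((k + 1) ^ X.card) ^ F.card :=
      (trajectory_card_le γ F _).trans (Nat.pow_le_pow_left (powSet_card X k) _)
    rw [hT]
    exact_mod_cast h1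
  set β : ℝ := α * F.card with hβ
  set q : ℝ := Real.exp (-(k * δ ^ 2 / 4)) with hq
  have hq0 : 0 < q := Real.exp_pos _
  have hq1 : q ≤ 1 := Real.exp_le_one_iff.mpr (by
    have : 0 ≤ k * δ ^ 2 / 4 := by positivity
    linarith)
  have hint : ∫ x, ‖PF γ X k F x‖ ^ 2 ∂(mK K) ≤ (mK K).real (BS γ X δ F β) + q ^ β := by
    have hBm := BS_meas γ X δ F β
    have h1 : ∫ x, ‖PF γ X k F x‖ ^ 2 ∂(mK K) ≤
        ∫ x, ((BS γ X δ F β).indicator (fun _ => (1 : ℝ)) x + q ^ β) ∂(mK K) := by
      apply integral_mono_of_nonneg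
      · exact Eventually.of_forall fun x => by positivity
      · exact ((integrable_const _).indicator hBm).add (integrable_const _)
      · refine Eventually.of_forall fun x => ?_
        have h2 := PF_upper γ X k F δ hδ x
        by_cases hx : x ∈ BS γ X δ F β
        · have h3 : q ^ (bad γ X δ F x) ≤ 1 := pow_le_one₀ hq0.le hq1
          have h4 : 0 < q ^ β := Real.rpow_pos_of_pos hq0 _
          simp only [Set.indicator_of_mem hx]
          change ‖PF γ X k F x‖ ^ 2 ≤ 1 + q ^ β
          linarith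
        · simp only [Set.indicator_of_notMem hx]
          change ‖PF γ X k F x‖ ^ 2 ≤ 0 + q ^ β
          rw [zero_add]
          refine h2.trans ?_
          have h5 : β ≤ (bad γ X δ F x : ℝ) := by
            by_contra hcon
            exact hx (not_le.mp hcon)
          rw [← Real.rpow_natCast]
          exact Real.rpow_le_rpow_of_exponent_ge hq0 hq1 h5
    refine h1.trans (le_of_eq ?_)
    rw [integral_add ((integrable_const _).indicator hBm) (integrable_const _),
      integral_indicator_const _ hBm]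
    simp
  have h1 := PF_lower γ X k F
  rw [← hT] at h1
  have h2 : T * q ^ β ≤ η := by
    have e1 : q ^ β = (Real.exp (-(δ ^ 2 * α / 4 * k))) ^ F.card := by
      rw [hq, ← Real.exp_mul, ← Real.exp_nat_mul, hβ]
      congr 1; ring
    rw [e1]
    calc T * (Real.exp (-(δ ^ 2 * α / 4 * k))) ^ F.card
        ≤ (((k : ℝ) + 1) ^ X.card) ^ F.card * (Real.exp (-(δ ^ 2 * α / 4 * k))) ^ F.card := by
          gcongr
      _ = (((k : ℝ) + 1) ^ X.card * Real.exp (-(δ ^ 2 * α / 4 * k))) ^ F.card := by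
          rw [mul_pow]
      _ ≤ η ^ F.card := by gcongr
      _ ≤ η ^ 1 := pow_le_pow_of_le_one hη0.le hη1.le hF.card_pos
      _ = η := pow_one _
  have h3 : 1 ≤ T * ((mK K).real (BS γ X δ F β) + q ^ β) :=
    h1.trans (mul_le_mul_of_nonneg_left hint hT0)
  rw [mul_add] at h3
  linarith

/-- The topological side is at most the algebraic side, with an explicit uniform error. -/
theorem top_le_alg [T2Space K] (γ : S → (K →ₜ* K)) {n : ℕ} (U : Fin n → Set K)
    (hUo : ∀ i, IsOpen (U i)) (hUc : (⋃ i, U i) = Set.univ) (ε : ℝ) (hε : 0 < ε) :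
    ∃ X : Finset (PontryaginDual K), X.Nonempty ∧ ∀ F : Finset S, F.Nonempty →
      Real.log (coverNumber γ U F) ≤ Real.log ((trajectory γ F X).ncard) + ε * F.card := by
  classical
  obtain ⟨X0, δ, i, hδ, hi⟩ := cover_chars U hUo hUc
  have hn : 0 < n := (i 1).pos
  have hn' : (0 : ℝ) < n := by exact_mod_cast hn
  set t : ℝ := min 1 (ε / (4 * n)) with ht
  have ht0 : 0 < t := lt_min one_pos (by positivity)
  have ht1 : t ≤ 1 := min_le_left _ _
  have htn : t * n ≤ ε / 4 := by
    calc t * n ≤ ε / (4 * n) * n := by gcongr; exact min_le_right _ _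
      _ = ε / 4 := by field_simp
  set L : ℝ := -Real.log t with hL
  have hL0 : 0 ≤ L := by
    have := Real.log_nonpos ht0.le ht1
    linarith
  set α : ℝ := ε / (8 * (L + 1)) with hα
  have hα0 : 0 < α := by positivity
  have hαL : 2 * α * L ≤ ε / 4 := by
    rw [hα]
    have : 2 * (ε / (8 * (L + 1))) * L = ε / 4 * (L / (L + 1)) := by field_simp; ring
    rw [this]
    have h2 : L / (L + 1) ≤ 1 := by rw [div_le_one (by linarith)]; linarith
    nlinarith
  set η : ℝ := 1 - Real.exp (-(ε / 2)) with hη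
  have hη0 : 0 < η := by
    have : Real.exp (-(ε / 2)) < 1 := by rw [Real.exp_lt_one_iff]; linarith
    linarith
  have hη1 : η < 1 := by
    have := Real.exp_pos (-(ε / 2))
    linarith
  obtain ⟨k, hk⟩ := exists_k X0.card ((δ / 2) ^ 2 * α / 4) η (by positivity) hη0
  refine ⟨powSet X0 k, powSet_nonempty X0 k, fun F hF => ?_⟩
  have h1 := BS_lower γ X0 (δ / 2) α η (by positivity) hα0 hη0 hη1 k hk F hF
  set M := (mK K).real (BS γ X0 (δ / 2) F (α * F.card)) with hM
  set T : ℝ := ((trajectory γ F (powSet X0 k)).ncard : ℝ) with hT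
  have hpos1 : 0 < T * M := by linarith
  have hM0 : 0 ≤ M := measureReal_nonneg
  have hT0 : 0 ≤ T := Nat.cast_nonneg _
  have hMpos : 0 < M := by
    rcases hM0.lt_or_eq with h | h
    · exact h
    · rw [← h, mul_zero] at hpos1; exact absurd hpos1 (lt_irrefl _)
  have hTpos : 0 < T := by
    rcases hT0.lt_or_eq with h | h
    · exact h
    · rw [← h, zero_mul] at hpos1; exact absurd hpos1 (lt_irrefl _)
  have h2 := packing γ U hUc X0 δ i hi F (α * F.card) t ht0 ht1 hMpos
  rw [← hM] at h2
  set N : ℝ := (coverNumber γ U F : ℝ) with hN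
  have hNpos : 0 < N := by rw [hN]; exact_mod_cast coverNumber_pos γ U hUc F
  have ht2 : 0 < t ^ (2 * (α * F.card)) := Real.rpow_pos_of_pos ht0 _
  have h3 : Real.log (N * M * t ^ (2 * (α * F.card))) ≤ Real.log ((1 + t * n) ^ F.card) :=
    Real.log_le_log (by positivity) h2
  rw [Real.log_mul (by positivity) (by positivity), Real.log_mul hNpos.ne' hMpos.ne',
    Real.log_rpow ht0, Real.log_pow] at h3
  have h4 : Real.log (1 - η) ≤ Real.log (T * M) := Real.log_le_log (by linarith) h1
  rw [Real.log_mul hTpos.ne' hMpos.ne'] at h4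
  have h5 : Real.log (1 - η) = -(ε / 2) := by
    rw [hη, sub_sub_cancel, Real.log_exp]
  have h6 : Real.log (1 + t * n) ≤ ε / 4 := by
    have := Real.log_le_sub_one_of_pos (show (0:ℝ) < 1 + t * n by positivity)
    linarith
  have hFc : (1 : ℝ) ≤ F.card := by exact_mod_cast hF.card_pos
  have h7 : (F.card : ℝ) * Real.log (1 + t * n) ≤ F.card * (ε / 4) := by gcongr
  have h8 : F.card * (2 * α * L) ≤ F.card * (ε / 4) := by gcongr
  have h9 : 2 * (α * F.card) * Real.log t = -(F.card * (2 * α * L)) := by rw [hL]; ring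
  rw [h9] at h3
  nlinarith

end Pool.Agent.W726.Bridge
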