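import Mathlib

set_option autoImplicit false
open Set

namespace Pool.Agent.W726.FlowSpace

instance factOne : Fact ((0:ℝ) < 1) := ⟨one_pos⟩

/-! ### arcs of the circle -/

/-- open arcs of the circle -/
def arc (M : ℕ) (j : Fin M) : Set (AddCircle (1:ℝ)) :=
  (fun θ : ℝ => (θ : AddCircle (1:ℝ))) '' Ioo ((j : ℝ) / M) (((j : ℝ) + 2) / M)

lemma arc_open (M : ℕ) (j : Fin M) : IsOpen (arc M j) :=
  QuotientAddGroup.isOpenMap_coe _ isOpen_Ioo

lemma coe_eq_iff (a b : ℝ) : (a : AddCircle (1:ℝ)) = b ↔ ∃ k : ℤ, a = b + k := by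
  rw [← sub_eq_zero, ← AddCircle.coe_sub, AddCircle.coe_eq_zero_iff]
  constructor
  · rintro ⟨n, hn⟩
    exact ⟨n, by simp at hn; linarith⟩
  · rintro ⟨n, hn⟩
    exact ⟨n, by simp [hn]⟩

lemma exists_rep (x : AddCircle (1:ℝ)) : ∃ θ : ℝ, 0 < θ ∧ θ ≤ 1 ∧ (θ : AddCircle (1:ℝ)) = x := by
  obtain ⟨t, rfl⟩ := QuotientAddGroup.mk_surjective x
  refine ⟨t - ⌈t⌉ + 1, ?_, ?_, ?_⟩
  · have := Int.ceil_lt_add_one t; linarith
  · have := Int.le_ceil t; linarith
  · have h : ((t - ⌈t⌉ + 1 : ℝ) : AddCircle (1:ℝ)) = (t : AddCircle (1:ℝ)) := by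
      rw [coe_eq_iff]
      exact ⟨-⌈t⌉ + 1, by push_cast; ring⟩
    exact h

lemma arc_cover (M : ℕ) (hM : 0 < M) (x : AddCircle (1:ℝ)) : ∃ j : Fin M, x ∈ arc M j := by
  obtain ⟨θ, h0, h1, rfl⟩ := exists_rep x
  have hM' : (0:ℝ) < M := by exact_mod_cast hM
  have hpos : 0 < ⌈(M:ℝ) * θ⌉ := Int.ceil_pos.mpr (by positivity)
  have hle : ⌈(M:ℝ) * θ⌉ ≤ M := by
    rw [Int.ceil_le]
    have : (M:ℝ) * θ ≤ M * 1 := by gcongr
    push_cast; linarith
  obtain ⟨j, hj⟩ : ∃ j : ℕ, (j : ℤ) = ⌈(M:ℝ) * θ⌉ - 1 := ⟨(⌈(M:ℝ) * θ⌉ - 1).toNat, by omega⟩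
  have hjM : j < M := by omega
  refine ⟨⟨j, hjM⟩, θ, ⟨?_, ?_⟩, rfl⟩
  · rw [div_lt_iff₀ hM']
    have := Int.ceil_lt_add_one ((M:ℝ) * θ)
    have h2 : ((j : ℤ) : ℝ) = ⌈(M:ℝ) * θ⌉ - 1 := by rw [hj]; push_cast; ring
    push_cast at h2
    simp only
    linarith
  · rw [lt_div_iff₀ hM']
    have := Int.le_ceil ((M:ℝ) * θ)
    have h2 : ((j : ℤ) : ℝ) = ⌈(M:ℝ) * θ⌉ - 1 := by rw [hj]; push_cast; ring
    push_cast at h2
    simp only
    linarith

lemma arc_mult (M : ℕ) (hM : 0 < M) (x : AddCircle (1:ℝ)) :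
    {j : Fin M | x ∈ arc M j}.ncard ≤ 2 := by
  obtain ⟨θ, h0, h1, rfl⟩ := exists_rep x
  have hM' : (0:ℝ) < M := by exact_mod_cast hM
  set c : ℤ := ⌈(M:ℝ) * θ⌉ - 1 with hc
  have hc1 : (c : ℝ) < M * θ := by
    have := Int.ceil_lt_add_one ((M:ℝ) * θ)
    rw [hc]; push_cast; linarith
  have hc2 : (M:ℝ) * θ ≤ c + 1 := by
    have := Int.le_ceil ((M:ℝ) * θ)
    rw [hc]; push_cast; linarith
  have key : ∀ j : Fin M, (θ : AddCircle (1:ℝ)) ∈ arc M j →
      ((j : ℕ) : ZMod M) ∈ ({(c : ZMod M), ((c - 1 : ℤ) : ZMod M)} : Set (ZMod M)) := by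
    rintro j ⟨θ', ⟨ha, hb⟩, hθ⟩
    obtain ⟨k, hk⟩ := (coe_eq_iff θ' θ).mp hθ
    rw [div_lt_iff₀ hM'] at ha
    rw [lt_div_iff₀ hM'] at hb
    rw [hk] at ha hb
    have e1 : ((j : ℕ) : ℤ) - M * k ≤ c := by
      have : (((j : ℕ) : ℤ) - M * k : ℝ) < c + 1 := by push_cast; nlinarith
      have : (((j : ℕ) : ℤ) - M * k : ℤ) < c + 1 := by exact_mod_cast this
      omega
    have e2 : c - 1 ≤ ((j : ℕ) : ℤ) - M * k := by
      have : (c : ℝ) < (((j : ℕ) : ℤ) - M * k : ℝ) + 2 := by push_cast; nlinarith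
      have : c < (((j : ℕ) : ℤ) - M * k : ℤ) + 2 := by exact_mod_cast this
      omega
    have e3 : (((j : ℕ) : ℤ) - M * k : ℤ) = c ∨ (((j : ℕ) : ℤ) - M * k : ℤ) = c - 1 := by omega
    have e4 : ((((j : ℕ) : ℤ) - M * k : ℤ) : ZMod M) = ((j : ℕ) : ZMod M) := by
      push_cast; simp
    rcases e3 with e | e
    · left; rw [← e4, e]
    · right; rw [← e4, e]; rfl
  have hinj : InjOn (fun j : Fin M => ((j : ℕ) : ZMod M)) {j : Fin M | (θ : AddCircle (1:ℝ)) ∈ arc M j} := by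
    intro a _ b _ hab
    simp only at hab
    rw [ZMod.natCast_eq_natCast_iff'] at hab
    rw [Nat.mod_eq_of_lt a.2, Nat.mod_eq_of_lt b.2] at hab
    exact Fin.ext hab
  calc {j : Fin M | (θ : AddCircle (1:ℝ)) ∈ arc M j}.ncard
      ≤ ({(c : ZMod M), ((c - 1 : ℤ) : ZMod M)} : Set (ZMod M)).ncard :=
        Set.ncard_le_ncard_of_injOn _ key hinj (Set.toFinite _)
    _ ≤ 2 := Set.ncard_insert_le _ _ |>.trans (by simp)

lemma arc_small (M : ℕ) (hM : 0 < M) (j : Fin M) (x y : AddCircle (1:ℝ)) (hx : x ∈ arc M j)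
    (hy : y ∈ arc M j) : dist x y ≤ 2 / M := by
  obtain ⟨a, ⟨ha1, ha2⟩, rfl⟩ := hx
  obtain ⟨b, ⟨hb1, hb2⟩, rfl⟩ := hy
  have hM' : (0:ℝ) < M := by exact_mod_cast hM
  have h1 : dist (a : AddCircle (1:ℝ)) (b : AddCircle (1:ℝ)) ≤ |a - b| := by
    rw [dist_eq_norm, ← AddCircle.coe_sub]
    have h2 : ‖((a - b : ℝ) : UnitAddCircle)‖ = |(a - b) - round (a - b)| := UnitAddCircle.norm_eq
    have h3 := round_le (a - b) 0
    simp only [Int.cast_zero, sub_zero] at h3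
    exact h2.le.trans h3
  refine h1.trans ?_
  have h3 : ((j : ℝ) + 2) / M - (j : ℝ) / M = 2 / M := by ring
  rw [abs_le]
  constructor <;> linarith

/-! ### the space -/

/-- the speeds -/
noncomputable def sn (n : ℕ) : ℝ := 1 / ((n : ℝ) + 2)

lemma sn_pos (n : ℕ) : 0 < sn n := by unfold sn; positivity

lemma sn_le (n : ℕ) : sn n ≤ 1 / 2 := by
  unfold sn
  apply one_div_le_one_div_of_le (by norm_num)
  have : (0:ℝ) ≤ n := Nat.cast_nonneg n
  linarith

/-- the set of speeds -/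
def S : Set ℝ := insert 0 (range sn)

lemma tendsto_sn : Filter.Tendsto sn Filter.atTop (nhds 0) := by
  have h := tendsto_one_div_add_atTop_nhds_zero_nat (𝕜 := ℝ)
  have h2 := h.comp (Filter.tendsto_add_atTop_nat 1)
  refine h2.congr fun n => ?_
  simp only [Function.comp, sn]
  push_cast
  ring

lemma S_compact : IsCompact S := tendsto_sn.isCompact_insert_range

lemma S_nonneg {s : ℝ} (hs : s ∈ S) : 0 ≤ s := by
  rcases hs with rfl | ⟨n, rfl⟩
  · exact le_rfl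
  · exact (sn_pos n).le

lemma S_le {s : ℝ} (hs : s ∈ S) : s ≤ 1 / 2 := by
  rcases hs with rfl | ⟨n, rfl⟩
  · norm_num
  · exact sn_le n

lemma S_isolated (i : ℕ) {s : ℝ} (hs : s ∈ S) (h1 : 1 / ((i : ℝ) + 3) < s)
    (h2 : s < 1 / ((i : ℝ) + 1)) : s = sn i := by
  rcases hs with rfl | ⟨n, rfl⟩
  · exfalso
    have : (0:ℝ) < 1 / ((i : ℝ) + 3) := by positivity
    linarith
  · unfold sn at *
    rw [one_div_lt_one_div (by positivity) (by positivity)] at h1 h2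
    have e1 : (n : ℝ) < i + 1 := by linarith
    have e2 : (i : ℝ) < n + 1 := by linarith
    have e1' : n < i + 1 := by exact_mod_cast e1
    have e2' : i < n + 1 := by exact_mod_cast e2
    have : n = i := by omega
    rw [this]

/-- the ambient space -/
abbrev Y : Type := ℝ × AddCircle (1:ℝ) × ℂ

/-- the parametrisation -/
noncomputable def F (p : ℝ × AddCircle (1:ℝ)) : Y :=
  (p.1, p.2 + p.2, (p.1 : ℂ) * (fourier 1 p.2 : ℂ))

lemma F_cont : Continuous F := by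
  unfold F
  have h1 : Continuous fun p : ℝ × AddCircle (1:ℝ) => (fourier 1 p.2 : ℂ) :=
    (fourier 1 : C(AddCircle (1:ℝ), ℂ)).continuous.comp continuous_snd
  exact continuous_fst.prodMk ((continuous_snd.add continuous_snd).prodMk
    ((Complex.continuous_ofReal.comp continuous_fst).mul h1))

/-- the parameter space -/
def K : Set (ℝ × AddCircle (1:ℝ)) := S ×ˢ univ

lemma K_compact : IsCompact K := S_compact.prod isCompact_univ

/-- the space of the flow -/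
def XS : Set Y := F '' K

lemma XS_compact : IsCompact XS := K_compact.image F_cont

/-- the ambient action -/
noncomputable def act (t : ℝ) (p : Y) : Y :=
  (p.1, p.2.1 + (((1 + p.1) * t : ℝ) : AddCircle (1:ℝ)),
    p.2.2 * (fourier 1 (((1 + p.1) * t / 2 : ℝ) : AddCircle (1:ℝ)) : ℂ))

lemma act_F (t : ℝ) (p : ℝ × AddCircle (1:ℝ)) :
    act t (F p) = F (p.1, p.2 + (((1 + p.1) * t / 2 : ℝ) : AddCircle (1:ℝ))) := by
  unfold act F
  simp only
  refine Prod.ext rfl (Prod.ext ?_ ?_)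
  · simp only
    have : (((1 + p.1) * t : ℝ) : AddCircle (1:ℝ)) = (((1 + p.1) * t / 2 : ℝ) : AddCircle (1:ℝ))
      + (((1 + p.1) * t / 2 : ℝ) : AddCircle (1:ℝ)) := by
      rw [← AddCircle.coe_add]; congr 1; ring
    rw [this]
    abel
  · simp only
    rw [mul_assoc]
    congr 1
    rw [fourier_one, fourier_one, fourier_one, AddCircle.toCircle_add]
    simp

lemma act_mem (t : ℝ) {p : Y} (hp : p ∈ XS) : act t p ∈ XS := by
  obtain ⟨q, hq, rfl⟩ := hp
  rw [act_F]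
  exact ⟨(q.1, q.2 + (((1 + q.1) * t / 2 : ℝ) : AddCircle (1:ℝ))), ⟨hq.1, trivial⟩, rfl⟩

lemma act_zero (p : Y) : act 0 p = p := by
  unfold act
  refine Prod.ext rfl (Prod.ext ?_ ?_)
  · simp
  · simp

lemma act_add (t t' : ℝ) (p : Y) : act (t + t') p = act t (act t' p) := by
  unfold act
  refine Prod.ext rfl (Prod.ext ?_ ?_)
  · simp only
    rw [add_assoc, ← AddCircle.coe_add]
    congr 2
    ring
  · simp only
    rw [mul_assoc]
    congr 1
    rw [fourier_one, fourier_one, fourier_one, ← Circle.coe_mul, ← AddCircle.toCircle_add,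
      ← AddCircle.coe_add]
    congr 3
    ring

lemma act_cont : Continuous fun q : ℝ × Y => act q.1 q.2 := by
  unfold act
  have h1 : Continuous fun q : ℝ × Y => (((1 + q.2.1) * q.1 : ℝ) : AddCircle (1:ℝ)) :=
    (AddCircle.continuous_mk' (1:ℝ)).comp (by fun_prop)
  have h2 : Continuous fun q : ℝ × Y =>
      (fourier 1 (((1 + q.2.1) * q.1 / 2 : ℝ) : AddCircle (1:ℝ)) : ℂ) :=
    (fourier 1 : C(AddCircle (1:ℝ), ℂ)).continuous.comp
      ((AddCircle.continuous_mk' (1:ℝ)).comp (by fun_prop))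
  exact (by fun_prop : Continuous fun q : ℝ × Y => q.2.1).prodMk
    (((by fun_prop : Continuous fun q : ℝ × Y => q.2.2.1).add h1).prodMk
    ((by fun_prop : Continuous fun q : ℝ × Y => q.2.2.2).mul h2))

/-- the space of the flow, as a type -/
def X : Type := ↥XS

noncomputable instance : MetricSpace X := inferInstanceAs (MetricSpace ↥XS)

instance : CompactSpace X := isCompact_iff_compactSpace.mp XS_compact

noncomputable instance : AddAction ℝ X where
  vadd t x := ⟨act t x.1, act_mem t x.2⟩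
  zero_vadd x := Subtype.ext (act_zero x.1)
  add_vadd t t' x := Subtype.ext (act_add t t' x.1)

lemma vadd_val (t : ℝ) (x : X) : (t +ᵥ x).1 = act t x.1 := rfl

instance : ContinuousVAdd ℝ X where
  continuous_vadd := by
    have h : Continuous fun q : ℝ × X => (⟨act q.1 q.2.1, act_mem q.1 q.2.2⟩ : ↥XS) :=
      Continuous.subtype_mk (act_cont.comp (continuous_fst.prodMk
        (continuous_subtype_val.comp continuous_snd))) _
    exact h

end Pool.Agent.W726.FlowSpace
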