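import Mathlib

set_option autoImplicit false
set_option linter.unusedSectionVars false

open scoped ContDiff Topology NNReal
open Function Set Filter

namespace Pool.Agent.W726.Symp

universe u
variable {V : Type u} [NormedAddCommGroup V] [NormedSpace ℝ V] [FiniteDimensional ℝ V]

/-- the map `x + c h x` -/
def A (h : V → V) (c : ℝ) (x : V) : V := x + c • h x

lemma A_lip (h : V → V) (hL : LipschitzWith (1 / 2) h) (c : ℝ) (hc : |c| ≤ 1) :
    LipschitzWith (1 / 2) (fun x => c • h x) := by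
  refine LipschitzWith.of_dist_le_mul fun x y => ?_
  rw [dist_smul₀]
  have h1 := hL.dist_le_mul x y
  have h2 : 0 ≤ dist (h x) (h y) := dist_nonneg
  calc ‖c‖ * dist (h x) (h y) ≤ 1 * dist (h x) (h y) := by
        gcongr; rwa [Real.norm_eq_abs]
    _ = dist (h x) (h y) := one_mul _
    _ ≤ _ := h1

lemma A_inj (h : V → V) (hL : LipschitzWith (1 / 2) h) (c : ℝ) (hc : |c| ≤ 1) :
    Injective (A h c) := by
  intro x y hxy
  simp only [A] at hxy
  have h1 := (A_lip h hL c hc).dist_le_mul x y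
  have h2 : dist (c • h x) (c • h y) = dist x y := by
    rw [dist_eq_norm, dist_eq_norm]
    have : c • h x - c • h y = -(x - y) := by
      have h3 : x - y = c • h y - c • h x := by
        rw [sub_eq_sub_iff_add_eq_add, hxy, add_comm]
      rw [h3]; abel
    rw [this, norm_neg]
  rw [h2] at h1
  have h3 : dist x y ≤ 0 := by
    push_cast at h1
    linarith
  exact dist_le_zero.mp h3

lemma A_surj (h : V → V) (hL : LipschitzWith (1 / 2) h) (c : ℝ) (hc : |c| ≤ 1) :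
    Surjective (A h c) := by
  intro y
  have : CompleteSpace V := FiniteDimensional.complete ℝ V
  have hcon : ContractingWith (1 / 2) (fun x => y - c • h x) := by
    refine ⟨by norm_num, LipschitzWith.of_dist_le_mul fun a b => ?_⟩
    rw [dist_sub_left]
    exact (A_lip h hL c hc).dist_le_mul a b
  have hfix := hcon.fixedPoint_isFixedPt
  refine ⟨hcon.fixedPoint, ?_⟩
  unfold A
  have h1 : y - c • h hcon.fixedPoint = hcon.fixedPoint := hfix
  rw [← eq_sub_iff_add_eq]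
  exact h1.symm

/-- `A h c` as an equivalence -/
noncomputable def Aeq (h : V → V) (hL : LipschitzWith (1 / 2) h) (c : ℝ) (hc : |c| ≤ 1) : V ≃ V :=
  Equiv.ofBijective (A h c) ⟨A_inj h hL c hc, A_surj h hL c hc⟩

/-- the joint map -/
def Phi (h : V → V) (c : ℝ → ℝ) (p : ℝ × V) : ℝ × V := (p.1, A h (c p.1) p.2)

lemma Phi_bij (h : V → V) (hL : LipschitzWith (1 / 2) h) (c : ℝ → ℝ) (hc : ∀ s, |c s| ≤ 1) :
    Bijective (Phi h c) := by
  constructor
  · rintro ⟨s, x⟩ ⟨t, y⟩ hxy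
    simp only [Phi, Prod.mk.injEq] at hxy
    obtain ⟨rfl, h2⟩ := hxy
    rw [A_inj h hL _ (hc s) h2]
  · rintro ⟨s, y⟩
    obtain ⟨x, hx⟩ := A_surj h hL _ (hc s) y
    exact ⟨(s, x), by simp [Phi, hx]⟩

lemma Phi_contDiff (h : V → V) (hh : ContDiff ℝ ∞ h) (c : ℝ → ℝ) (hc : ContDiff ℝ ∞ c) :
    ContDiff ℝ ∞ (Phi h c) := by
  unfold Phi A
  fun_prop

/-- the derivative of the joint map -/
noncomputable def dPhi (h : V → V) (c : ℝ → ℝ) (p : ℝ × V) : (ℝ × V) →L[ℝ] (ℝ × V) :=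
  (ContinuousLinearMap.fst ℝ ℝ V).prod (ContinuousLinearMap.snd ℝ ℝ V +
    (c p.1 • ((fderiv ℝ h p.2).comp (ContinuousLinearMap.snd ℝ ℝ V)) +
      (deriv c p.1 • ContinuousLinearMap.fst ℝ ℝ V).smulRight (h p.2)))

lemma Phi_hasFDerivAt (h : V → V) (hh : ContDiff ℝ ∞ h) (c : ℝ → ℝ) (hc : ContDiff ℝ ∞ c)
    (p : ℝ × V) : HasFDerivAt (Phi h c) (dPhi h c p) p := by
  unfold Phi A dPhi
  have h1 : HasFDerivAt (fun q : ℝ × V => c q.1) (deriv c p.1 • ContinuousLinearMap.fst ℝ ℝ V) p := by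
    have h2 : HasDerivAt c (deriv c p.1) p.1 := (hc.differentiable (by simp)).differentiableAt.hasDerivAt
    exact h2.comp_hasFDerivAt p hasFDerivAt_fst
  have h3 : HasFDerivAt (fun q : ℝ × V => h q.2)
      ((fderiv ℝ h p.2).comp (ContinuousLinearMap.snd ℝ ℝ V)) p := by
    have h4 : HasFDerivAt h (fderiv ℝ h p.2) p.2 := (hh.differentiable (by simp)).differentiableAt.hasFDerivAt
    exact h4.comp p hasFDerivAt_snd
  exact hasFDerivAt_fst.prodMk (hasFDerivAt_snd.add (h1.smul h3))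

lemma dPhi_inj (h : V → V) (hL : LipschitzWith (1 / 2) h) (c : ℝ → ℝ)
    (hc : ∀ s, |c s| ≤ 1) (p : ℝ × V) : Injective (dPhi h c p) := by
  rw [injective_iff_map_eq_zero]
  rintro ⟨s, v⟩ hv
  simp only [dPhi, ContinuousLinearMap.prod_apply, ContinuousLinearMap.coe_fst',
    add_apply, ContinuousLinearMap.coe_snd', smul_apply,
    ContinuousLinearMap.comp_apply, ContinuousLinearMap.smulRight_apply, Prod.mk_eq_zero] at hv
  obtain ⟨rfl, h2⟩ := hv
  simp only [smul_zero, zero_smul, add_zero] at h2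
  have h3 : ‖fderiv ℝ h p.2‖ ≤ (1 / 2 : ℝ≥0) := norm_fderiv_le_of_lipschitz ℝ hL
  have h4 : ‖v‖ ≤ 1 / 2 * ‖v‖ := by
    have h5 : v = -(c p.1 • (fderiv ℝ h p.2) v) := eq_neg_of_add_eq_zero_left h2
    calc ‖v‖ = ‖c p.1 • (fderiv ℝ h p.2) v‖ := by
          rw [← norm_neg (c p.1 • (fderiv ℝ h p.2) v)]; exact congrArg _ h5
      _ = |c p.1| * ‖(fderiv ℝ h p.2) v‖ := by rw [norm_smul, Real.norm_eq_abs]
      _ ≤ 1 * (‖fderiv ℝ h p.2‖ * ‖v‖) := by
          gcongr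
          · exact hc _
          · exact ContinuousLinearMap.le_opNorm _ _
      _ ≤ 1 * ((1 / 2 : ℝ≥0) * ‖v‖) := by gcongr
      _ = 1 / 2 * ‖v‖ := by push_cast; ring
  have h6 : ‖v‖ ≤ 0 := by linarith [norm_nonneg v]
  simp [norm_le_zero_iff.mp h6]

/-- the derivative as an equivalence -/
noncomputable def ePhi (h : V → V) (hL : LipschitzWith (1 / 2) h) (c : ℝ → ℝ)
    (hc : ∀ s, |c s| ≤ 1) (p : ℝ × V) : (ℝ × V) ≃L[ℝ] (ℝ × V) :=
  (LinearEquiv.ofInjectiveEndo (dPhi h c p : (ℝ × V) →ₗ[ℝ] (ℝ × V))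
    (dPhi_inj h hL c hc p)).toContinuousLinearEquiv

lemma ePhi_coe (h : V → V) (hL : LipschitzWith (1 / 2) h) (c : ℝ → ℝ)
    (hc : ∀ s, |c s| ≤ 1) (p : ℝ × V) :
    (ePhi h hL c hc p : (ℝ × V) →L[ℝ] (ℝ × V)) = dPhi h c p := by
  ext <;> rfl

/-- joint smoothness of the inverses -/
lemma inv_contDiff (h : V → V) (hh : ContDiff ℝ ∞ h) (hL : LipschitzWith (1 / 2) h) (c : ℝ → ℝ)
    (hc : ∀ s, |c s| ≤ 1) (hc2 : ContDiff ℝ ∞ c) :
    ContDiff ℝ ∞ (fun p : ℝ × V => (Aeq h hL (c p.1) (hc p.1)).symm p.2) := by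
  have : CompleteSpace V := FiniteDimensional.complete ℝ V
  have hcd := Phi_contDiff h hh c hc2
  have hopen : IsOpenMap (Phi h c) := by
    refine isOpenMap_of_hasStrictFDerivAt_equiv (f' := fun p => ePhi h hL c hc p) fun p => ?_
    rw [ePhi_coe]
    exact (hcd.contDiffAt).hasStrictFDerivAt' (Phi_hasFDerivAt h hh c hc2 p) (by simp)
  let e : (ℝ × V) ≃ (ℝ × V) := Equiv.ofBijective _ (Phi_bij h hL c hc)
  let e' : (ℝ × V) ≃ₜ (ℝ × V) := e.toHomeomorphOfContinuousOpen hcd.continuous hopen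
  have h1 : ContDiff ℝ ∞ e'.symm := by
    refine Homeomorph.contDiff_symm e' (f₀' := fun p => ePhi h hL c hc p) (fun p => ?_) hcd
    rw [ePhi_coe]
    exact Phi_hasFDerivAt h hh c hc2 p
  have h2 : ∀ p : ℝ × V, (Aeq h hL (c p.1) (hc p.1)).symm p.2 = (e'.symm p).2 := by
    rintro ⟨s, y⟩
    obtain ⟨x, hx⟩ := A_surj h hL _ (hc s) y
    have h3 : e' (s, x) = (s, y) := by
      change Phi h c (s, x) = (s, y)
      simp [Phi, hx]
    rw [← h3, Homeomorph.symm_apply_apply]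
    simp only
    rw [h3, Equiv.symm_apply_eq]
    exact hx.symm
  have h3 : (fun p : ℝ × V => (Aeq h hL (c p.1) (hc p.1)).symm p.2) = fun p => (e'.symm p).2 :=
    funext h2
  rw [h3]
  exact h1.snd

end Pool.Agent.W726.Symp
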