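import Pool.Agent.W726.Symp1

set_option autoImplicit false
set_option linter.unusedSectionVars false

open scoped ContDiff Topology NNReal
open Function Set Filter

namespace Pool.Agent.W726.Symp

universe u
variable {V : Type u} [NormedAddCommGroup V] [NormedSpace ℝ V]

/-- the diffeomorphisms of `V` which preserve the bilinear form `Ω` and are the identity
outside of `K` -/
def SympSupp (Ω : V →ₗ[ℝ] V →ₗ[ℝ] ℝ) (K : Set V) : Subgroup (Equiv.Perm V) where
  carrier := {φ | ContDiff ℝ ∞ φ ∧ ContDiff ℝ ∞ φ.symm ∧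
    (∀ x u v : V, Ω (fderiv ℝ φ x u) (fderiv ℝ φ x v) = Ω u v) ∧ ∀ x, x ∉ K → φ x = x}
  mul_mem' := by
    rintro φ ψ ⟨h1, h2, h3, h4⟩ ⟨k1, k2, k3, k4⟩
    refine ⟨h1.comp k1, k2.comp h2, fun x u v => ?_, fun x hx => ?_⟩
    · have e : fderiv ℝ (φ * ψ : Equiv.Perm V) x = (fderiv ℝ φ (ψ x)).comp (fderiv ℝ ψ x) :=
        fderiv_comp x (h1.differentiable (by simp)).differentiableAt
          (k1.differentiable (by simp)).differentiableAt
      rw [e]
      simp only [ContinuousLinearMap.comp_apply]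
      rw [h3, k3]
    · rw [Equiv.Perm.mul_apply, k4 x hx, h4 x hx]
  one_mem' := by
    refine ⟨contDiff_id, contDiff_id, fun x u v => ?_, fun x _ => rfl⟩
    have e : fderiv ℝ ((1 : Equiv.Perm V) : V → V) x = ContinuousLinearMap.id ℝ V := fderiv_id
    rw [e]; rfl
  inv_mem' := by
    rintro φ ⟨h1, h2, h3, h4⟩
    refine ⟨h2, h1, fun x u v => ?_, fun x hx => ?_⟩
    · have e : (fderiv ℝ φ (φ.symm x)).comp (fderiv ℝ φ.symm x) = ContinuousLinearMap.id ℝ V := by
        rw [← fderiv_comp x (h1.differentiable (by simp)).differentiableAt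
          (h2.differentiable (by simp)).differentiableAt]
        have : (φ ∘ φ.symm : V → V) = id := by ext y; simp
        rw [this, fderiv_id]
      have e1 : ∀ w, fderiv ℝ φ (φ.symm x) (fderiv ℝ φ.symm x w) = w := fun w => by
        rw [← ContinuousLinearMap.comp_apply, e]; rfl
      change Ω (fderiv ℝ φ.symm x u) (fderiv ℝ φ.symm x v) = Ω u v
      rw [← h3 (φ.symm x), e1, e1]
    · change φ.symm x = x
      rw [Equiv.symm_apply_eq]
      exact (h4 x hx).symm

lemma SympSupp_mono (Ω : V →ₗ[ℝ] V →ₗ[ℝ] ℝ) {K L : Set V} (h : K ⊆ L) :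
    SympSupp Ω K ≤ SympSupp Ω L := by
  rintro φ ⟨h1, h2, h3, h4⟩
  exact ⟨h1, h2, h3, fun x hx => h4 x fun hxK => hx (h hxK)⟩

/-- the `k`-th derivative of `φ`, as a continuous map -/
noncomputable def jet (φ : V → V) (h : ContDiff ℝ ∞ φ) (k : ℕ) :
    C(V, ContinuousMultilinearMap ℝ (fun _ : Fin k => V) V) :=
  ⟨iteratedFDeriv ℝ k φ, h.continuous_iteratedFDeriv (by exact_mod_cast le_top)⟩

/-- the `C^∞` topology: uniform convergence on compact sets of all derivatives -/
noncomputable instance cInf (Ω : V →ₗ[ℝ] V →ₗ[ℝ] ℝ) (K : Set V) : TopologicalSpace ↥(SympSupp Ω K) :=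
  TopologicalSpace.induced (fun φ => fun k : ℕ => jet (φ : V → V) φ.2.1 k) inferInstance

lemma cInf_second [FiniteDimensional ℝ V] (Ω : V →ₗ[ℝ] V →ₗ[ℝ] ℝ) (K : Set V) :
    SecondCountableTopology ↥(SympSupp Ω K) := by
  have h0 : ∀ k : ℕ, SecondCountableTopology (ContinuousMultilinearMap ℝ (fun _ : Fin k => V) V) := by
    intro k
    have h1 : FiniteDimensional ℝ (ContinuousMultilinearMap ℝ (fun _ : Fin k => V) V) :=
      Module.Finite.of_injective
        (ContinuousMultilinearMap.toMultilinearMapLinear :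
          ContinuousMultilinearMap ℝ (fun _ : Fin k => V) V →ₗ[ℝ] MultilinearMap ℝ (fun _ : Fin k => V) V)
        ContinuousMultilinearMap.toMultilinearMap_injective
    have h2 : ProperSpace (ContinuousMultilinearMap ℝ (fun _ : Fin k => V) V) :=
      FiniteDimensional.proper_real _
    infer_instance
  have h3 : ProperSpace V := FiniteDimensional.proper_real _
  exact TopologicalSpace.secondCountableTopology_induced _ _ _

/-- a jointly smooth family is continuous in the `C^∞` topology -/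
lemma continuous_family (Ω : V →ₗ[ℝ] V →ₗ[ℝ] ℝ) (K : Set V)
    (γ : ℝ → ↥(SympSupp Ω K)) (hγ : ContDiff ℝ ∞ (fun p : ℝ × V => (γ p.1 : V → V) p.2)) :
    Continuous γ := by
  refine continuous_induced_rng.2 (continuous_pi fun k => ?_)
  apply ContinuousMap.continuous_of_continuous_uncurry
  set F : ℝ × V → V := fun p => (γ p.1 : V → V) p.2 with hF
  have h1 : ∀ p : ℝ × V, iteratedFDeriv ℝ k (γ p.1 : V → V) p.2 =
      (iteratedFDeriv ℝ k F p).compContinuousLinearMap fun _ => ContinuousLinearMap.inr ℝ ℝ V := by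
    rintro ⟨s, x⟩
    have e1 : (γ s : V → V) = (fun q => F ((s, 0) + q)) ∘ (ContinuousLinearMap.inr ℝ ℝ V) := by
      ext y; simp [hF]
    have hF' : ContDiff ℝ ∞ (fun q => F ((s, 0) + q)) := hγ.comp (contDiff_const.add contDiff_id)
    have e2 := ContinuousLinearMap.iteratedFDeriv_comp_right (ContinuousLinearMap.inr ℝ ℝ V) hF' x
      (i := k) (by exact_mod_cast le_top)
    rw [← e1] at e2
    rw [e2, iteratedFDeriv_comp_add_left]
    simp
  have h2 : (Function.uncurry fun (s : ℝ) (x : V) => (jet (γ s : V → V) (γ s).2.1 k) x) =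
      fun p : ℝ × V => (iteratedFDeriv ℝ k F p).compContinuousLinearMap
        fun _ => ContinuousLinearMap.inr ℝ ℝ V := by
    ext1 p
    exact h1 p
  change Continuous (Function.uncurry fun (s : ℝ) (x : V) => (jet (γ s : V → V) (γ s).2.1 k) x)
  rw [h2]
  have h3 : Continuous (iteratedFDeriv ℝ k F) :=
    hγ.continuous_iteratedFDeriv (by exact_mod_cast le_top)
  have h4 : Continuous fun M : ContinuousMultilinearMap ℝ (fun _ : Fin k => ℝ × V) V =>
      (M.compContinuousLinearMap fun _ => ContinuousLinearMap.inr ℝ ℝ V :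
        ContinuousMultilinearMap ℝ (fun _ : Fin k => V) V) :=
    (ContinuousMultilinearMap.compContinuousLinearMapL
      fun _ => ContinuousLinearMap.inr ℝ ℝ V).continuous
  exact h4.comp h3

lemma joined_family (Ω : V →ₗ[ℝ] V →ₗ[ℝ] ℝ) (K : Set V)
    (γ : ℝ → ↥(SympSupp Ω K)) (hγ : ContDiff ℝ ∞ (fun p : ℝ × V => (γ p.1 : V → V) p.2))
    (a b : ℝ) : Joined (γ a) (γ b) := by
  have hc := continuous_family Ω K γ hγ
  have h1 : Joined a b := PathConnectedSpace.joined a b
  exact h1.map hc

end Pool.Agent.W726.Symp
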