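import Pool.Agent.W726.Symp2

set_option autoImplicit false
set_option linter.unusedSectionVars false

open scoped ContDiff Topology NNReal
open Function Set Filter

namespace Pool.Agent.W726.Symp

universe u
variable {V : Type u} [NormedAddCommGroup V] [NormedSpace ℝ V] [FiniteDimensional ℝ V]

lemma A_contDiff (h : V → V) (hh : ContDiff ℝ ∞ h) (c : ℝ) : ContDiff ℝ ∞ (A h c) := by
  unfold A
  fun_prop

lemma A_fderiv (h : V → V) (hh : ContDiff ℝ ∞ h) (c : ℝ) (x : V) :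
    fderiv ℝ (A h c) x = ContinuousLinearMap.id ℝ V + c • fderiv ℝ h x := by
  have h1 : HasFDerivAt h (fderiv ℝ h x) x := (hh.differentiable (by simp)).differentiableAt.hasFDerivAt
  exact ((hasFDerivAt_id x).add (h1.const_smul c)).fderiv

lemma Aeq_symm_contDiff (h : V → V) (hh : ContDiff ℝ ∞ h) (hL : LipschitzWith (1 / 2) h) (c : ℝ)
    (hc : |c| ≤ 1) : ContDiff ℝ ∞ (Aeq h hL c hc).symm := by
  have h1 := inv_contDiff h hh hL (fun _ => c) (fun _ => hc) contDiff_const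
  exact h1.comp (contDiff_const (c := (0 : ℝ)) |>.prodMk contDiff_id)

lemma A_symp (Ω : V →ₗ[ℝ] V →ₗ[ℝ] ℝ) (h : V → V) (hh : ContDiff ℝ ∞ h)
    (hs : ∀ x u v : V, Ω (u + fderiv ℝ h x u) (v + fderiv ℝ h x v) = Ω u v)
    (a b : ℝ) (hab : a + b = 1) (x u v : V) :
    Ω (fderiv ℝ (A h a) x u) (fderiv ℝ (A h a) x v) =
      Ω (fderiv ℝ (A h b) x u) (fderiv ℝ (A h b) x v) := by
  rw [A_fderiv h hh, A_fderiv h hh]
  have h1 := hs x u v
  simp only [add_apply, ContinuousLinearMap.id_apply, smul_apply, map_add, map_smul,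
    LinearMap.add_apply, LinearMap.smul_apply, smul_eq_mul] at h1 ⊢
  obtain rfl : b = 1 - a := by linarith
  linear_combination (a - (1 - a)) * h1

lemma iso_mem (Ω : V →ₗ[ℝ] V →ₗ[ℝ] ℝ) (K : Set V) (h : V → V) (hh : ContDiff ℝ ∞ h)
    (hL : LipschitzWith (1 / 2) h)
    (hs : ∀ x u v : V, Ω (u + fderiv ℝ h x u) (v + fderiv ℝ h x v) = Ω u v)
    (hK : ∀ x, x ∉ K → h x = 0) (a b : ℝ) (ha : |a| ≤ 1) (hb : |b| ≤ 1) (hab : a + b = 1) :
    (Aeq h hL a ha : Equiv.Perm V) * (Aeq h hL b hb : Equiv.Perm V)⁻¹ ∈ SympSupp Ω K := by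
  have sa := A_contDiff h hh a
  have sb := A_contDiff h hh b
  have ia := Aeq_symm_contDiff h hh hL a ha
  have ib := Aeq_symm_contDiff h hh hL b hb
  refine ⟨sa.comp ib, sb.comp ia, fun y u v => ?_, fun y hy => ?_⟩
  · have hco : ((Aeq h hL a ha : Equiv.Perm V) * (Aeq h hL b hb : Equiv.Perm V)⁻¹ : V → V)
        = A h a ∘ (Aeq h hL b hb).symm := rfl
    have e : fderiv ℝ ((Aeq h hL a ha : Equiv.Perm V) * (Aeq h hL b hb : Equiv.Perm V)⁻¹ : Equiv.Perm V) y
        = (fderiv ℝ (A h a) ((Aeq h hL b hb).symm y)).comp (fderiv ℝ (Aeq h hL b hb).symm y) :=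
      fderiv_comp y (sa.differentiable (by simp)).differentiableAt
          (ib.differentiable (by simp)).differentiableAt
    have e2 : (fderiv ℝ (A h b) ((Aeq h hL b hb).symm y)).comp (fderiv ℝ (Aeq h hL b hb).symm y)
        = ContinuousLinearMap.id ℝ V := by
      rw [← fderiv_comp y (sb.differentiable (by simp)).differentiableAt
          (ib.differentiable (by simp)).differentiableAt]
      have : (A h b ∘ (Aeq h hL b hb).symm : V → V) = id := by
        ext z; exact (Aeq h hL b hb).apply_symm_apply z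
      rw [this, fderiv_id]
    have e3 : ∀ w, fderiv ℝ (A h b) ((Aeq h hL b hb).symm y) (fderiv ℝ (Aeq h hL b hb).symm y w) = w :=
      fun w => by rw [← ContinuousLinearMap.comp_apply, e2]; rfl
    rw [e]
    simp only [ContinuousLinearMap.comp_apply]
    rw [A_symp Ω h hh hs a b hab, e3, e3]
  · have hAy : ∀ (c : ℝ) (hc : |c| ≤ 1), Aeq h hL c hc y = y := by
      intro c hc
      change y + c • h y = y
      rw [hK y hy, smul_zero, add_zero]
    rw [Equiv.Perm.mul_apply]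
    have h1 : (Aeq h hL b hb : Equiv.Perm V)⁻¹ y = y := by
      change (Aeq h hL b hb).symm y = y
      rw [Equiv.symm_apply_eq]; exact (hAy b hb).symm
    rw [h1, hAy a ha]

/-- the interpolating parameter -/
noncomputable def cc (s : ℝ) : ℝ := Real.cos s ^ 2 / 2

lemma cc_nonneg (s : ℝ) : 0 ≤ cc s := by unfold cc; positivity

lemma cc_le (s : ℝ) : cc s ≤ 1 / 2 := by
  unfold cc
  have := Real.cos_sq_le_one s
  linarith

lemma cc_abs (s : ℝ) : |cc s| ≤ 1 := by
  rw [abs_of_nonneg (cc_nonneg s)]; linarith [cc_le s]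

lemma cc_abs' (s : ℝ) : |1 - cc s| ≤ 1 := by
  rw [abs_of_nonneg (by linarith [cc_le s])]; linarith [cc_nonneg s]

lemma cc_contDiff : ContDiff ℝ ∞ cc := by
  unfold cc
  fun_prop

/-- two elements which are close in the `C^1` sense are joined by a path -/
lemma joined_of_close (Ω : V →ₗ[ℝ] V →ₗ[ℝ] ℝ) (K : Set V) (φ ψ : ↥(SympSupp Ω K))
    (hclose : ∀ x, ‖fderiv ℝ (fun x => (ψ * φ⁻¹ : ↥(SympSupp Ω K)).1 x - x) x‖ ≤ 1 / 2) :
    Joined φ ψ := by
  set g : ↥(SympSupp Ω K) := ψ * φ⁻¹ with hg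
  obtain ⟨g1, g2, g3, g4⟩ := g.2
  set h : V → V := fun x => g.1 x - x with hh
  have hsm : ContDiff ℝ ∞ h := g1.sub contDiff_id
  have hL : LipschitzWith (1 / 2) h := by
    apply lipschitzWith_of_nnnorm_fderiv_le (𝕜 := ℝ) (hsm.differentiable (by simp))
    intro x
    rw [← NNReal.coe_le_coe]
    push_cast
    exact hclose x
  have hs : ∀ x u v : V, Ω (u + fderiv ℝ h x u) (v + fderiv ℝ h x v) = Ω u v := by
    intro x u v
    have h1 : fderiv ℝ h x = fderiv ℝ g.1 x - ContinuousLinearMap.id ℝ V := by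
      have h2 : HasFDerivAt g.1 (fderiv ℝ g.1 x) x :=
        (g1.differentiable (by simp)).differentiableAt.hasFDerivAt
      exact (h2.sub (hasFDerivAt_id x)).fderiv
    have h2 : ∀ w, w + fderiv ℝ h x w = fderiv ℝ g.1 x w := by
      intro w
      rw [h1]
      simp
    rw [h2, h2]
    exact g3 x u v
  have hK : ∀ x, x ∉ K → h x = 0 := by
    intro x hx
    simp only [hh]
    rw [g4 x hx, sub_self]
  let γ : ℝ → ↥(SympSupp Ω K) := fun s =>
    ⟨(Aeq h hL (1 - cc s) (cc_abs' s) : Equiv.Perm V) * (Aeq h hL (cc s) (cc_abs s) : Equiv.Perm V)⁻¹,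
      iso_mem Ω K h hsm hL hs hK _ _ _ _ (by ring)⟩ * φ
  have hγ : ContDiff ℝ ∞ (fun p : ℝ × V => (γ p.1 : V → V) p.2) := by
    have h1 := inv_contDiff h hsm hL cc cc_abs cc_contDiff
    have h2 : ContDiff ℝ ∞ (fun p : ℝ × V => (p.1, (φ.1 : V → V) p.2)) :=
      contDiff_fst.prodMk (φ.2.1.comp contDiff_snd)
    have h3 := h1.comp h2
    have h4 : (fun p : ℝ × V => (γ p.1 : V → V) p.2) = fun p : ℝ × V =>
        (Aeq h hL (cc p.1) (cc_abs p.1)).symm ((φ.1 : V → V) p.2) +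
          (1 - cc p.1) • h ((Aeq h hL (cc p.1) (cc_abs p.1)).symm ((φ.1 : V → V) p.2)) := rfl
    rw [h4]
    have h5 : ContDiff ℝ ∞ (fun p : ℝ × V => (Aeq h hL (cc p.1) (cc_abs p.1)).symm ((φ.1 : V → V) p.2)) := h3
    have h6 : ContDiff ℝ ∞ (fun p : ℝ × V => 1 - cc p.1) :=
      contDiff_const.sub (cc_contDiff.comp contDiff_fst)
    exact h5.add (h6.smul (hsm.comp h5))
  have hj := joined_family Ω K γ hγ 0 (Real.pi / 2)
  have hfin : ∀ (s c d : ℝ) (hc : |c| ≤ 1) (hd : |d| ≤ 1) (x : V), cc s = c → 1 - cc s = d →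
      (γ s : V → V) x = Aeq h hL d hd ((Aeq h hL c hc).symm ((φ.1 : V → V) x)) := by
    intro s c d hc hd x h1 h2
    subst h1 h2
    rfl
  have h0 : γ 0 = φ := by
    apply Subtype.ext
    apply Equiv.ext
    intro x
    have := hfin 0 (1 / 2) (1 / 2) (by norm_num [abs_le]) (by norm_num [abs_le]) x
      (by simp [cc]) (by simp [cc]; norm_num)
    rw [this, Equiv.apply_symm_apply]
  have h1 : γ (Real.pi / 2) = ψ := by
    apply Subtype.ext
    apply Equiv.ext
    intro x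
    have := hfin (Real.pi / 2) 0 1 (by norm_num) (by norm_num) x
      (by simp [cc]) (by simp [cc])
    rw [this]
    have e0 : (Aeq h hL 0 (by norm_num)).symm ((φ.1 : V → V) x) = (φ.1 : V → V) x := by
      rw [Equiv.symm_apply_eq]
      change _ = (φ.1 : V → V) x + (0 : ℝ) • h _
      rw [zero_smul, add_zero]
    rw [e0]
    change (φ.1 : V → V) x + (1 : ℝ) • h ((φ.1 : V → V) x) = ψ.1 x
    rw [one_smul]
    simp only [hh, hg]
    change (φ.1 : V → V) x + (ψ.1 (φ.1.symm (φ.1 x)) - (φ.1 : V → V) x) = ψ.1 x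
    rw [Equiv.symm_apply_apply]
    abel
  rw [h0, h1] at hj
  exact hj

end Pool.Agent.W726.Symp
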