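import Pool.Agent.W726.Symp3

set_option autoImplicit false
set_option linter.unusedSectionVars false

open scoped ContDiff Topology NNReal
open Function Set Filter

namespace Pool.Agent.W726.Symp

universe u
variable {V : Type u} [NormedAddCommGroup V] [NormedSpace ℝ V] [FiniteDimensional ℝ V]

lemma close_mem_nhds (Ω : V →ₗ[ℝ] V →ₗ[ℝ] ℝ) (K : Set V) (hK : IsCompact K)
    (φ : ↥(SympSupp Ω K)) (c : ℝ) (hc : 0 < c) :
    {ψ : ↥(SympSupp Ω K) | ∀ y ∈ K, ‖fderiv ℝ ψ.1 y - fderiv ℝ φ.1 y‖ < c} ∈ 𝓝 φ := by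
  have hcont : Continuous fun ψ : ↥(SympSupp Ω K) =>
      jet (ψ : V → V) ψ.2.1 1 - jet (φ : V → V) φ.2.1 1 := by
    have h1 : Continuous fun ψ : ↥(SympSupp Ω K) => (fun k : ℕ => jet (ψ : V → V) ψ.2.1 k) :=
      continuous_induced_dom
    exact ((continuous_apply 1).comp h1).sub continuous_const
  have hopen : IsOpen {F : C(V, ContinuousMultilinearMap ℝ (fun _ : Fin 1 => V) V) |
      MapsTo F K (Metric.ball 0 c)} := ContinuousMap.isOpen_setOfPred_mapsTo hK Metric.isOpen_ball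
  have h2 := hopen.preimage hcont
  have h3 : φ ∈ (fun ψ : ↥(SympSupp Ω K) => jet (ψ : V → V) ψ.2.1 1 - jet (φ : V → V) φ.2.1 1) ⁻¹'
      {F : C(V, ContinuousMultilinearMap ℝ (fun _ : Fin 1 => V) V) |
      MapsTo F K (Metric.ball 0 c)} := by
    intro y _
    simp [hc]
  refine mem_of_superset (h2.mem_nhds h3) ?_
  intro ψ hψ y hy
  have h4 := hψ hy
  rw [mem_ball_zero_iff] at h4
  refine lt_of_le_of_lt ?_ h4
  refine ContinuousLinearMap.opNorm_le_bound _ (norm_nonneg _) fun u => ?_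
  have h5 : (fderiv ℝ ψ.1 y - fderiv ℝ φ.1 y) u =
      ((jet (ψ : V → V) ψ.2.1 1 - jet (φ : V → V) φ.2.1 1) y) (fun _ => u) := by
    change _ = iteratedFDeriv ℝ 1 (ψ : V → V) y (fun _ => u) - iteratedFDeriv ℝ 1 (φ : V → V) y (fun _ => u)
    rw [iteratedFDeriv_one_apply, iteratedFDeriv_one_apply]
    rfl
  rw [h5]
  have h6 := ContinuousMultilinearMap.le_opNorm
    ((jet (ψ : V → V) ψ.2.1 1 - jet (φ : V → V) φ.2.1 1) y) (fun _ => u)
  simpa using h6

lemma maps_K (Ω : V →ₗ[ℝ] V →ₗ[ℝ] ℝ) (K : Set V) (φ : ↥(SympSupp Ω K)) (x : V) (hx : x ∈ K) :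
    φ.1.symm x ∈ K := by
  by_contra h
  have h1 := φ.2.2.2.2 _ h
  have h2 : x = φ.1.symm x := by
    conv_lhs => rw [← φ.1.apply_symm_apply x]
    exact h1
  exact h (h2 ▸ hx)

lemma joined_mem_nhds (Ω : V →ₗ[ℝ] V →ₗ[ℝ] ℝ) (K : Set V) (hK : IsCompact K)
    (φ : ↥(SympSupp Ω K)) : {ψ : ↥(SympSupp Ω K) | Joined φ ψ} ∈ 𝓝 φ := by
  obtain ⟨f1, f2, f3, f4⟩ := φ.2
  have hcont : Continuous fun x => ‖fderiv ℝ φ.1.symm x‖ :=
    (f2.continuous_fderiv (by simp)).norm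
  obtain ⟨M, hM⟩ : ∃ M : ℝ, ∀ x ∈ K, ‖fderiv ℝ φ.1.symm x‖ ≤ M := by
    obtain ⟨M, hM⟩ := hK.bddAbove_image hcont.continuousOn
    exact ⟨M, fun x hx => hM (mem_image_of_mem _ hx)⟩
  set M' : ℝ := max M 1 with hM'
  have hM'pos : 0 < M' := lt_of_lt_of_le one_pos (le_max_right _ _)
  have hnh := close_mem_nhds Ω K hK φ (1 / (2 * M')) (by positivity)
  refine mem_of_superset hnh fun ψ hψ => joined_of_close Ω K φ ψ fun x => ?_
  obtain ⟨k1, k2, k3, k4⟩ := ψ.2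
  have g1 : ContDiff ℝ ∞ (ψ * φ⁻¹ : ↥(SympSupp Ω K)).1 := (ψ * φ⁻¹ : ↥(SympSupp Ω K)).2.1
  by_cases hx : x ∈ K
  · have hy := maps_K Ω K φ x hx
    have e1 : fderiv ℝ (fun x => (ψ * φ⁻¹ : ↥(SympSupp Ω K)).1 x - x) x =
        fderiv ℝ (ψ * φ⁻¹ : ↥(SympSupp Ω K)).1 x - ContinuousLinearMap.id ℝ V := by
      have h2 : HasFDerivAt (ψ * φ⁻¹ : ↥(SympSupp Ω K)).1 (fderiv ℝ (ψ * φ⁻¹ : ↥(SympSupp Ω K)).1 x) x :=
        (g1.differentiable (by simp)).differentiableAt.hasFDerivAt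
      exact (h2.sub (hasFDerivAt_id x)).fderiv
    have e2 : fderiv ℝ (ψ * φ⁻¹ : ↥(SympSupp Ω K)).1 x =
        (fderiv ℝ ψ.1 (φ.1.symm x)).comp (fderiv ℝ φ.1.symm x) :=
      fderiv_comp x (k1.differentiable (by simp)).differentiableAt
        (f2.differentiable (by simp)).differentiableAt
    have e3 : ContinuousLinearMap.id ℝ V =
        (fderiv ℝ φ.1 (φ.1.symm x)).comp (fderiv ℝ φ.1.symm x) := by
      rw [← fderiv_comp x (f1.differentiable (by simp)).differentiableAt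
        (f2.differentiable (by simp)).differentiableAt]
      have : (φ.1 ∘ φ.1.symm : V → V) = id := by ext z; simp
      rw [this, fderiv_id]
    rw [e1, e2, e3, ← ContinuousLinearMap.sub_comp]
    calc ‖(fderiv ℝ ψ.1 (φ.1.symm x) - fderiv ℝ φ.1 (φ.1.symm x)).comp (fderiv ℝ φ.1.symm x)‖
        ≤ ‖fderiv ℝ ψ.1 (φ.1.symm x) - fderiv ℝ φ.1 (φ.1.symm x)‖ * ‖fderiv ℝ φ.1.symm x‖ :=
          ContinuousLinearMap.opNorm_comp_le _ _
      _ ≤ 1 / (2 * M') * M' := by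
          gcongr
          · exact (hψ _ hy).le
          · exact (hM x hx).trans (le_max_left _ _)
      _ = 1 / 2 := by field_simp
  · have h1 : (fun x => (ψ * φ⁻¹ : ↥(SympSupp Ω K)).1 x - x) =ᶠ[𝓝 x] fun _ => (0 : V) := by
      filter_upwards [hK.isClosed.isOpen_compl.mem_nhds hx] with y hy
      rw [(ψ * φ⁻¹ : ↥(SympSupp Ω K)).2.2.2.2 y hy, sub_self]
    rw [h1.fderiv_eq]
    simp

/-- countably many path components, for a fixed compact support -/
lemma countable_supp (Ω : V →ₗ[ℝ] V →ₗ[ℝ] ℝ) (K : Set V) (hK : IsCompact K) :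
    Countable (ZerothHomotopy ↥(SympSupp Ω K)) := by
  have hsc := cInf_second Ω K
  obtain ⟨s, hs, hs2⟩ := TopologicalSpace.countable_cover_nhds
    (f := fun φ : ↥(SympSupp Ω K) => {ψ : ↥(SympSupp Ω K) | Joined φ ψ})
    (fun φ => joined_mem_nhds Ω K hK φ)
  have hsur : Surjective (fun x : s => (Quotient.mk (pathSetoid _) x.1 : ZerothHomotopy ↥(SympSupp Ω K))) := by
    intro q
    induction q using Quotient.inductionOn with
    | h ψ =>
      have : ψ ∈ ⋃ x ∈ s, {ψ : ↥(SympSupp Ω K) | Joined x ψ} := by rw [hs2]; trivial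
      rw [mem_iUnion₂] at this
      obtain ⟨x, hx, hj⟩ := this
      exact ⟨⟨x, hx⟩, Quotient.sound hj⟩
  have : Countable s := hs.to_subtype
  exact hsur.countable

/-- the compactly supported diffeomorphisms of `V` which preserve `Ω` -/
def SympCt (Ω : V →ₗ[ℝ] V →ₗ[ℝ] ℝ) : Subgroup (Equiv.Perm V) where
  carrier := {φ | ∃ K : Set V, IsCompact K ∧ φ ∈ SympSupp Ω K}
  mul_mem' := by
    rintro φ ψ ⟨K, hK, h1⟩ ⟨L, hL, h2⟩
    exact ⟨K ∪ L, hK.union hL, (SympSupp Ω (K ∪ L)).mul_mem (SympSupp_mono Ω subset_union_left h1)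
      (SympSupp_mono Ω subset_union_right h2)⟩
  one_mem' := ⟨∅, isCompact_empty, (SympSupp Ω ∅).one_mem⟩
  inv_mem' := by
    rintro φ ⟨K, hK, h1⟩
    exact ⟨K, hK, (SympSupp Ω K).inv_mem h1⟩

/-- the inclusion -/
def incl (Ω : V →ₗ[ℝ] V →ₗ[ℝ] ℝ) (K : TopologicalSpace.Compacts V) :
    ↥(SympSupp Ω (K : Set V)) → ↥(SympCt Ω) :=
  fun φ => ⟨φ.1, K, K.isCompact, φ.2⟩

/-- the direct limit topology -/
noncomputable instance dirLim (Ω : V →ₗ[ℝ] V →ₗ[ℝ] ℝ) : TopologicalSpace ↥(SympCt Ω) :=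
  ⨆ K : TopologicalSpace.Compacts V, TopologicalSpace.coinduced (incl Ω K) inferInstance

lemma continuous_incl (Ω : V →ₗ[ℝ] V →ₗ[ℝ] ℝ) (K : TopologicalSpace.Compacts V) :
    Continuous (incl Ω K) := by
  rw [continuous_iff_coinduced_le]
  exact le_iSup (fun K : TopologicalSpace.Compacts V =>
    TopologicalSpace.coinduced (incl Ω K) inferInstance) K

theorem countable_pi0 (Ω : V →ₗ[ℝ] V →ₗ[ℝ] ℝ) : Countable (ZerothHomotopy ↥(SympCt Ω)) := by
  have hp : ProperSpace V := FiniteDimensional.proper_real _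
  let Km : ℕ → TopologicalSpace.Compacts V := fun m => ⟨Metric.closedBall 0 m, isCompact_closedBall 0 m⟩
  have hcount : ∀ m, Countable (ZerothHomotopy ↥(SympSupp Ω (Km m : Set V))) := fun m =>
    countable_supp Ω _ (Km m).isCompact
  let f : (Σ m : ℕ, ZerothHomotopy ↥(SympSupp Ω (Km m : Set V))) → ZerothHomotopy ↥(SympCt Ω) :=
    fun p => Quotient.map' (s₁ := pathSetoid _) (s₂ := pathSetoid _) (incl Ω (Km p.1))
      (fun _ _ h => Joined.map h (continuous_incl Ω (Km p.1))) p.2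
  have hf : Surjective f := by
    intro q
    induction q using Quotient.inductionOn with
    | h φ =>
      obtain ⟨φ, K, hK, hφ⟩ := φ
      obtain ⟨r, hr⟩ := hK.isBounded.subset_closedBall (0 : V)
      obtain ⟨m, hm⟩ := exists_nat_ge r
      have hsub : K ⊆ (Km m : Set V) := hr.trans (Metric.closedBall_subset_closedBall hm)
      exact ⟨⟨m, Quotient.mk (pathSetoid _) ⟨φ, SympSupp_mono Ω hsub hφ⟩⟩, rfl⟩
  exact hf.countable

end Pool.Agent.W726.Symp
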